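import Pool.Agent.Lib_helper2.GKX.X3

/-!
# Lifting of idempotents in the dual of a finite-dimensional pointed coalgebra
-/

set_option autoImplicit false

universe u v

namespace Pool.Agent.GKX

open TensorProduct Pool.Agent.GK Pool.Agent.GKP Pool.Agent.GKC Pool.Agent.GKU

section idem
variable {k : Type u} [Field k] {H : Type v} [Ring H] [HopfAlgebra k H]
variable {D : Submodule k H}

/-- the action of the functional `f` on `D` -/
noncomputable def lam (hD : IsSubcoalgebra k D) (f : Module.Dual k H) : Module.End k D :=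
  (FLAG_L k f).restrict fun x hx => ((FLAG_sub_iff k D).1 hD).1 f x hx

theorem lam_coe (hD : IsSubcoalgebra k D) (f : Module.Dual k H) (x : D) : (lam hD f x : H) = FLAG_L k f x := rfl

/-- the ring of these actions -/
noncomputable def RR (hD : IsSubcoalgebra k D) : Subring (Module.End k D) where
  carrier := Set.range (lam hD)
  mul_mem' := by
    rintro _ _ ⟨f, rfl⟩ ⟨g, rfl⟩
    refine ⟨FLAG_conv k f g, ?_⟩
    ext x
    rw [Module.End.mul_apply, lam_coe, lam_coe, lam_coe, FLAG_LL]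
  add_mem' := by
    rintro _ _ ⟨f, rfl⟩ ⟨g, rfl⟩
    refine ⟨f + g, ?_⟩
    ext x
    rw [LinearMap.add_apply, Submodule.coe_add, lam_coe, lam_coe, lam_coe, map_add, LinearMap.add_apply]
  one_mem' := by
    refine ⟨Coalgebra.counit (R := k), ?_⟩
    ext x
    rw [lam_coe, FLAG_Lcounit, Module.End.one_apply]
  zero_mem' := by
    refine ⟨0, ?_⟩
    ext x
    rw [lam_coe, map_zero, LinearMap.zero_apply, LinearMap.zero_apply, Submodule.coe_zero]
  neg_mem' := by
    rintro _ ⟨f, rfl⟩
    refine ⟨-f, ?_⟩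
    ext x
    rw [lam_coe, map_neg, LinearMap.neg_apply, LinearMap.neg_apply, Submodule.coe_neg, lam_coe]

theorem lam_mem (hD : IsSubcoalgebra k D) (f : Module.Dual k H) : lam hD f ∈ RR hD := ⟨f, rfl⟩

theorem conv_grp (f g : Module.Dual k H) (t : GroupLike k H) : FLAG_conv k f g t.val = f t.val * g t.val := by
  rw [FLAG_conv_apply, t.2.comul_eq_tmul_self, TensorProduct.map_tmul, LinearMap.mul'_apply]

/-- the values at the group-likes -/
noncomputable def evT (hD : IsSubcoalgebra k D) {T : Finset (GroupLike k H)} (hT : ∀ t ∈ T, t.val ∈ D) :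
    RR hD →+* (↥T → k) where
  toFun E := fun t => Coalgebra.counit (R := k) ((E.1 ⟨t.1.val, hT t.1 t.2⟩ : D) : H)
  map_one' := by
    ext t
    exact t.1.2.counit_eq_one
  map_mul' := by
    rintro ⟨_, f, rfl⟩ ⟨_, g, rfl⟩
    ext t
    change Coalgebra.counit (R := k) ((lam hD f (lam hD g ⟨t.1.val, hT t.1 t.2⟩) : D) : H) =
      Coalgebra.counit (R := k) ((lam hD f ⟨t.1.val, hT t.1 t.2⟩ : D) : H) *
        Coalgebra.counit (R := k) ((lam hD g ⟨t.1.val, hT t.1 t.2⟩ : D) : H)
    simp only [lam_coe, FLAG_counitL]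
    rw [L_grp, map_smul, smul_eq_mul, mul_comm]
  map_zero' := by
    ext t
    change Coalgebra.counit (R := k) (((0 : Module.End k D) ⟨t.1.val, hT t.1 t.2⟩ : D) : H) = 0
    rw [LinearMap.zero_apply, Submodule.coe_zero, map_zero]
  map_add' := by
    rintro ⟨E, hE⟩ ⟨E', hE'⟩
    ext t
    change Coalgebra.counit (R := k) (((E + E') ⟨t.1.val, hT t.1 t.2⟩ : D) : H) = _
    rw [LinearMap.add_apply, Submodule.coe_add, map_add]
    rfl

theorem evT_lam (hD : IsSubcoalgebra k D) {T : Finset (GroupLike k H)} (hT : ∀ t ∈ T, t.val ∈ D)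
    (f : Module.Dual k H) (h : lam hD f ∈ RR hD) (t : ↥T) : evT hD hT ⟨lam hD f, h⟩ t = f t.1.val := by
  change Coalgebra.counit (R := k) ((lam hD f ⟨t.1.val, hT t.1 t.2⟩ : D) : H) = _
  rw [lam_coe, FLAG_counitL]

theorem exists_Idem (D : Submodule k H) (T : Finset (GroupLike k H)) (hDf : D.FG) (hD : IsSubcoalgebra k D)
    (hTc : D ⊓ coradical k H = Submodule.span k (GroupLike.val '' (T : Set (GroupLike k H)))) :
    ∃ e : GroupLike k H → Module.Dual k H, Idem k D T e := by
  classical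
  have hT : ∀ t ∈ T, t.val ∈ D := by
    intro t ht
    have h1 : t.val ∈ D ⊓ coradical k H := hTc ▸ Submodule.subset_span ⟨t, ht, rfl⟩
    exact h1.1
  obtain ⟨r, F, hF0, hFr, hmono, hFD, hFs, hFc⟩ := chain_of k (coradical k H) D (GKP.coradical_sub k) le_rfl hDf hD
  -- the kernel is nil
  have hnil : ∀ x ∈ RingHom.ker (evT hD hT), IsNilpotent x := by
    rintro ⟨_, f, rfl⟩ hx
    rw [RingHom.mem_ker] at hx
    have hf : ∀ t ∈ T, f t.val = 0 := by
      intro t ht
      have h1 := congrFun hx ⟨t, ht⟩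
      have h2 := evT_lam hD hT f ⟨f, rfl⟩ ⟨t, ht⟩
      exact h2.symm.trans h1
    have hf0 : Van k (F 0) f := by
      rw [hF0, hTc]
      intro y hy
      have h1 : Submodule.span k (GroupLike.val '' (T : Set (GroupLike k H))) ≤ LinearMap.ker f := by
        rw [Submodule.span_le]
        rintro _ ⟨t, ht, rfl⟩
        exact hf t ht
      exact h1 hy
    have hstep : ∀ i, ∀ y ∈ F (i + 1), FLAG_L k f y ∈ F i := by
      intro i y hy
      have h1 := hFc i y hy
      rw [FLAG_L_apply]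
      obtain ⟨a, ha, w, hw, haw⟩ := Submodule.mem_sup.1 h1
      obtain ⟨b, hb, c, hc, hbc⟩ := Submodule.mem_sup.1 ha
      rw [← haw, ← hbc, map_add, map_add, map_add, map_add]
      have h2 := rid_lTensor_zero k hf0 hb
      rw [h2, zero_add]
      exact (F i).add_mem (hmono (Nat.zero_le i) (rid_lTensor_mem k hc)) (rid_lTensor_mem k hw)
    have hzero : ∀ y ∈ F 0, FLAG_L k f y = 0 := by
      intro y hy
      rw [FLAG_L_apply]
      exact rid_lTensor_zero k hf0 (hFs 0 y hy)
    have hpow : ∀ i, ∀ y : D, (y : H) ∈ F i → ((lam hD f ^ (i + 1)) y) = 0 := by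
      intro i
      induction i with
      | zero =>
        intro y hy
        rw [zero_add, pow_one]
        exact Subtype.ext (hzero y hy)
      | succ i ih =>
        intro y hy
        rw [pow_succ, Module.End.mul_apply]
        exact ih _ (hstep i y hy)
    refine ⟨r + 1, Subtype.ext ?_⟩
    change lam hD f ^ (r + 1) = 0
    ext y
    rw [hpow r y (hFr ▸ y.2)]
    rfl
  -- the range
  have hrange : ∀ i : ↥T, (Pi.single i (1 : k) : ↥T → k) ∈ (evT hD hT).range := by
    intro i
    obtain ⟨f, hf1, hf2⟩ := exists_dual k i.1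
    refine ⟨⟨lam hD ((f i.1.val)⁻¹ • f), lam_mem hD _⟩, ?_⟩
    ext t
    rw [evT_lam, LinearMap.smul_apply, smul_eq_mul]
    by_cases h : t = i
    · subst h
      rw [Pi.single_eq_same, inv_mul_cancel₀ hf1]
    · rw [Pi.single_eq_of_ne h, hf2 t.1 (fun h' => h (Subtype.ext h')), mul_zero]
  obtain ⟨E, hE, hEF⟩ := CompleteOrthogonalIdempotents.lift_of_isNilpotent_ker (evT hD hT) hnil
    (CompleteOrthogonalIdempotents.single (fun _ : ↥T => k)) hrange
  choose f hf using fun i : ↥T => (E i).2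
  have hval : ∀ s t : ↥T, f s t.1.val = (Pi.single s (1 : k) : ↥T → k) t := by
    intro s t
    have h1 := congrFun (congrFun hEF s) t
    have h2 : E s = ⟨lam hD (f s), lam_mem hD _⟩ := Subtype.ext (hf s).symm
    rw [Function.comp_apply, h2, evT_lam] at h1
    exact h1
  have hact : ∀ (s : ↥T) (x : D), ((E s).1 x : H) = FLAG_L k (f s) x := by
    intro s x
    rw [← hf s, lam_coe]
  have hcc : ∀ (s : ↥T) (x : H) (hx : x ∈ D), f s x = Coalgebra.counit (R := k) (((E s).1 ⟨x, hx⟩ : D) : H) := by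
    intro s x hx
    rw [hact, FLAG_counitL]
  have hconv : ∀ (s t : ↥T) (x : H) (hx : x ∈ D), FLAG_conv k (f s) (f t) x =
      Coalgebra.counit (R := k) (((E s * E t).1 ⟨x, hx⟩ : D) : H) := by
    intro s t x hx
    have h1 : (((E s * E t).1 ⟨x, hx⟩ : D) : H) = FLAG_L k (f s) (FLAG_L k (f t) x) := by
      change (((E s).1 ((E t).1 ⟨x, hx⟩) : D) : H) = _
      rw [hact, hact]
    rw [h1, FLAG_LL, FLAG_counitL]
  refine ⟨fun g => if h : g ∈ T then f ⟨g, h⟩ else 0, hD, hT, ?_, ?_, ?_, ?_, ?_⟩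
  · intro s hs
    simp only [hs, dif_pos]
    rw [hval ⟨s, hs⟩ ⟨s, hs⟩, Pi.single_eq_same]
  · intro s hs t ht hst
    simp only [hs, dif_pos]
    rw [hval ⟨s, hs⟩ ⟨t, ht⟩, Pi.single_eq_of_ne (fun h => hst (congrArg Subtype.val h).symm)]
  · intro s hs x hx
    simp only [hs, dif_pos]
    rw [hconv _ _ x hx, (hE.idem ⟨s, hs⟩).eq, ← hcc]
  · intro s hs t ht hst x hx
    simp only [hs, ht, dif_pos]
    rw [hconv _ _ x hx, hE.ortho (fun h => hst (congrArg Subtype.val h))]
    change Coalgebra.counit (R := k) (((0 : Module.End k D) ⟨x, hx⟩ : D) : H) = 0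
    rw [LinearMap.zero_apply, Submodule.coe_zero, map_zero]
  · intro x hx
    have h1 : ∑ t ∈ T, (if h : t ∈ T then f ⟨t, h⟩ else 0) x = ∑ t : ↥T, f t x := by
      rw [← Finset.sum_coe_sort T]
      refine Finset.sum_congr rfl fun t _ => ?_
      rw [dif_pos t.2]
    rw [h1]
    have h2 : ∑ t : ↥T, f t x = Coalgebra.counit (R := k) ((((∑ t : ↥T, E t : RR hD)).1 ⟨x, hx⟩ : D) : H) := by
      rw [AddSubmonoidClass.coe_finsetSum, LinearMap.sum_apply, Submodule.coe_sum, map_sum]
      exact Finset.sum_congr rfl fun t _ => hcc t x hx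
    rw [h2, hE.complete]
    rfl

end idem

end Pool.Agent.GKX
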