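import Pool.Agent.Lib_helper2.GKW.W12

/-!
# The two actions of the dual and the coproduct
-/

set_option autoImplicit false

universe u v

namespace Pool.Agent.GKX

open TensorProduct Pool.Agent.GK Pool.Agent.GKP Pool.Agent.GKC Pool.Agent.GKU

section ops
variable (k : Type u) [Field k] {H : Type v} [Ring H] [Bialgebra k H]

theorem comul_R (f : Module.Dual k H) (x : H) :
    Coalgebra.comul (R := k) (FLAG_R k f x) = LinearMap.rTensor H (FLAG_R k f) (Coalgebra.comul (R := k) x) := by
  set Φ : H ⊗[k] (H ⊗[k] H) →ₗ[k] H ⊗[k] H := (TensorProduct.lid k (H ⊗[k] H)).toLinearMap ∘ₗ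
    LinearMap.rTensor (H ⊗[k] H) f with hΦ
  have h1 : ∀ t : H ⊗[k] H, Coalgebra.comul (R := k) (TensorProduct.lid k H (LinearMap.rTensor H f t)) =
      Φ (LinearMap.lTensor H (Coalgebra.comul (R := k)) t) := by
    intro t
    induction t with
    | zero => simp
    | tmul a b => simp [hΦ]
    | add s t hs ht => simp only [map_add, hs, ht]
  have h3 : ∀ (s : H ⊗[k] H) (b : H), Φ (TensorProduct.assoc k H H H (s ⊗ₜ b)) =
      (TensorProduct.lid k H (LinearMap.rTensor H f s)) ⊗ₜ[k] b := by
    intro s b
    induction s with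
    | zero => simp
    | tmul p q => simp [hΦ, TensorProduct.smul_tmul']
    | add s t hs ht => simp only [TensorProduct.add_tmul, map_add, hs, ht]
  have h2 : ∀ t : H ⊗[k] H, LinearMap.rTensor H (FLAG_R k f) t =
      Φ (TensorProduct.assoc k H H H (LinearMap.rTensor H (Coalgebra.comul (R := k)) t)) := by
    intro t
    induction t with
    | zero => simp
    | tmul a b => rw [LinearMap.rTensor_tmul, LinearMap.rTensor_tmul, h3]; simp [FLAG_R_apply]
    | add s t hs ht => simp only [map_add, hs, ht]
  rw [FLAG_R_apply, h1, h2, Coalgebra.coassoc_apply]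

theorem comul_L (f : Module.Dual k H) (x : H) :
    Coalgebra.comul (R := k) (FLAG_L k f x) = LinearMap.lTensor H (FLAG_L k f) (Coalgebra.comul (R := k) x) := by
  set Φ : H ⊗[k] (H ⊗[k] H) →ₗ[k] H ⊗[k] H := LinearMap.lTensor H ((TensorProduct.rid k H).toLinearMap ∘ₗ
    LinearMap.lTensor H f) with hΦ
  have h1 : ∀ t : H ⊗[k] H, LinearMap.lTensor H (FLAG_L k f) t =
      Φ (LinearMap.lTensor H (Coalgebra.comul (R := k)) t) := by
    intro t
    induction t with
    | zero => simp
    | tmul a b => simp [hΦ, FLAG_L_apply]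
    | add s t hs ht => simp only [map_add, hs, ht]
  have h3 : ∀ (s : H ⊗[k] H) (b : H), Φ (TensorProduct.assoc k H H H (s ⊗ₜ b)) = f b • s := by
    intro s b
    induction s with
    | zero => simp
    | tmul p q => simp [hΦ]
    | add s t hs ht => simp only [TensorProduct.add_tmul, map_add, hs, ht, smul_add]
  have h2 : ∀ t : H ⊗[k] H, Coalgebra.comul (R := k) (TensorProduct.rid k H (LinearMap.lTensor H f t)) =
      Φ (TensorProduct.assoc k H H H (LinearMap.rTensor H (Coalgebra.comul (R := k)) t)) := by
    intro t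
    induction t with
    | zero => simp
    | tmul a b => rw [LinearMap.rTensor_tmul, h3]; simp
    | add s t hs ht => simp only [map_add, hs, ht]
  rw [FLAG_L_apply, h2, h1, Coalgebra.coassoc_apply]

theorem comul_mid (f : Module.Dual k H) (x : H) :
    LinearMap.rTensor H (FLAG_L k f) (Coalgebra.comul (R := k) x) =
      LinearMap.lTensor H (FLAG_R k f) (Coalgebra.comul (R := k) x) := by
  set Φ : H ⊗[k] (H ⊗[k] H) →ₗ[k] H ⊗[k] H := LinearMap.lTensor H ((TensorProduct.lid k H).toLinearMap ∘ₗ
    LinearMap.rTensor H f) with hΦ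
  have h1 : ∀ t : H ⊗[k] H, LinearMap.lTensor H (FLAG_R k f) t =
      Φ (LinearMap.lTensor H (Coalgebra.comul (R := k)) t) := by
    intro t
    induction t with
    | zero => simp
    | tmul a b => simp [hΦ, FLAG_R_apply]
    | add s t hs ht => simp only [map_add, hs, ht]
  have h3 : ∀ (s : H ⊗[k] H) (b : H), Φ (TensorProduct.assoc k H H H (s ⊗ₜ b)) =
      (TensorProduct.rid k H (LinearMap.lTensor H f s)) ⊗ₜ[k] b := by
    intro s b
    induction s with
    | zero => simp
    | tmul p q => simp [hΦ, TensorProduct.smul_tmul]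
    | add s t hs ht => simp only [TensorProduct.add_tmul, map_add, hs, ht]
  have h2 : ∀ t : H ⊗[k] H, LinearMap.rTensor H (FLAG_L k f) t =
      Φ (TensorProduct.assoc k H H H (LinearMap.rTensor H (Coalgebra.comul (R := k)) t)) := by
    intro t
    induction t with
    | zero => simp
    | tmul a b => rw [LinearMap.rTensor_tmul, LinearMap.rTensor_tmul, h3]; simp [FLAG_L_apply]
    | add s t hs ht => simp only [map_add, hs, ht]
  rw [h1, h2, Coalgebra.coassoc_apply]

end ops

end Pool.Agent.GKX
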