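import Pool.Agent.Lib_helper2.GKX.X1

/-!
# Orthogonal idempotents in the dual and the decomposition of a pointed coalgebra
-/

set_option autoImplicit false

universe u v

namespace Pool.Agent.GKX

open TensorProduct Pool.Agent.GK Pool.Agent.GKP Pool.Agent.GKC Pool.Agent.GKU

section ops
variable (k : Type u) [Field k] {H : Type v} [Ring H] [Bialgebra k H]

theorem L_congr {D : Submodule k H} (hD : IsSubcoalgebra k D) {f g : Module.Dual k H} (h : ∀ x ∈ D, f x = g x)
    {x : H} (hx : x ∈ D) : FLAG_L k f x = FLAG_L k g x := by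
  rw [← sub_eq_zero, ← LinearMap.sub_apply, ← map_sub, FLAG_L_apply]
  exact rid_lTensor_zero k (F := D) (G := D) (fun y hy => by rw [LinearMap.sub_apply, h y hy, sub_self]) (hD x hx)

theorem lid_rTensor_zero {F G : Submodule k H} {f : Module.Dual k H} (hf : Van k F f)
    {t : H ⊗[k] H} (ht : t ∈ tsp k F G) :
    TensorProduct.lid k H (LinearMap.rTensor H f t) = 0 := by
  have : tsp k F G ≤ LinearMap.ker ((TensorProduct.lid k H).toLinearMap ∘ₗ
      LinearMap.rTensor H f) := by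
    rw [tsp_le]
    intro a ha b hb
    simp [hf a ha]
  exact this ht

theorem R_congr {D : Submodule k H} (hD : IsSubcoalgebra k D) {f g : Module.Dual k H} (h : ∀ x ∈ D, f x = g x)
    {x : H} (hx : x ∈ D) : FLAG_R k f x = FLAG_R k g x := by
  rw [← sub_eq_zero, ← LinearMap.sub_apply, ← map_sub, FLAG_R_apply]
  exact lid_rTensor_zero k (F := D) (G := D) (fun y hy => by rw [LinearMap.sub_apply, h y hy, sub_self]) (hD x hx)

theorem map_congr_tsp {A B : Submodule k H} {φ φ' ψ ψ' : H →ₗ[k] H} (h1 : ∀ x ∈ A, φ x = φ' x)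
    (h2 : ∀ x ∈ B, ψ x = ψ' x) {t : H ⊗[k] H} (ht : t ∈ tsp k A B) :
    TensorProduct.map φ ψ t = TensorProduct.map φ' ψ' t := by
  have : tsp k A B ≤ LinearMap.ker (TensorProduct.map φ ψ - TensorProduct.map φ' ψ') := by
    rw [tsp_le]
    intro a ha b hb
    rw [LinearMap.mem_ker, LinearMap.sub_apply, TensorProduct.map_tmul, TensorProduct.map_tmul, h1 a ha, h2 b hb,
      sub_self]
  have h3 := this ht
  rwa [LinearMap.mem_ker, LinearMap.sub_apply, sub_eq_zero] at h3

theorem map_mem_tsp {A B A' B' : Submodule k H} {φ ψ : H →ₗ[k] H} (h1 : ∀ x ∈ A, φ x ∈ A')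
    (h2 : ∀ x ∈ B, ψ x ∈ B') {t : H ⊗[k] H} (ht : t ∈ tsp k A B) :
    TensorProduct.map φ ψ t ∈ tsp k A' B' := by
  have : tsp k A B ≤ (tsp k A' B').comap (TensorProduct.map φ ψ) := by
    rw [tsp_le]
    intro a ha b hb
    rw [Submodule.mem_comap, TensorProduct.map_tmul]
    exact tmul_mem_tsp k (h1 a ha) (h2 b hb)
  exact this ht

theorem L_grp (f : Module.Dual k H) (g : GroupLike k H) : FLAG_L k f g.val = f g.val • g.val := by
  rw [FLAG_L_apply, g.2.comul_eq_tmul_self]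
  simp

theorem R_grp (f : Module.Dual k H) (g : GroupLike k H) : FLAG_R k f g.val = f g.val • g.val := by
  rw [FLAG_R_apply, g.2.comul_eq_tmul_self]
  simp

/-- an element of `g ⊗ Z` -/
theorem mem_tsp_left {Z : Submodule k H} {g : H} {t : H ⊗[k] H} (ht : t ∈ tsp k (Submodule.span k {g}) Z) :
    ∃ z ∈ Z, t = g ⊗ₜ[k] z := by
  have h1 : tsp k (Submodule.span k {g}) Z ≤ Z.map (TensorProduct.mk k H H g) := by
    rw [tsp_le]
    intro a ha b hb
    obtain ⟨c, rfl⟩ := Submodule.mem_span_singleton.1 ha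
    exact ⟨c • b, Z.smul_mem c hb, by rw [TensorProduct.mk_apply, TensorProduct.tmul_smul, TensorProduct.smul_tmul']⟩
  obtain ⟨z, hz, h2⟩ := h1 ht
  exact ⟨z, hz, h2.symm⟩

theorem mem_tsp_right {Z : Submodule k H} {g : H} {t : H ⊗[k] H} (ht : t ∈ tsp k Z (Submodule.span k {g})) :
    ∃ z ∈ Z, t = z ⊗ₜ[k] g := by
  have h1 : tsp k Z (Submodule.span k {g}) ≤ Z.map ((TensorProduct.mk k H H).flip g) := by
    rw [tsp_le]
    intro a ha b hb
    obtain ⟨c, rfl⟩ := Submodule.mem_span_singleton.1 hb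
    exact ⟨c • a, Z.smul_mem c ha, by
      rw [LinearMap.flip_apply, TensorProduct.mk_apply, TensorProduct.smul_tmul]⟩
  obtain ⟨z, hz, h2⟩ := h1 ht
  exact ⟨z, hz, h2.symm⟩

/-- complete orthogonal idempotents of the dual of `D`, indexed by the group-likes of `D` -/
structure Idem (D : Submodule k H) (T : Finset (GroupLike k H)) (e : GroupLike k H → Module.Dual k H) :
    Prop where
  sub : IsSubcoalgebra k D
  mem : ∀ t ∈ T, t.val ∈ D
  self : ∀ s ∈ T, e s s.val = 1
  ne : ∀ s ∈ T, ∀ t ∈ T, s ≠ t → e s t.val = 0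
  mul_self : ∀ s ∈ T, ∀ x ∈ D, FLAG_conv k (e s) (e s) x = e s x
  mul_ne : ∀ s ∈ T, ∀ t ∈ T, s ≠ t → ∀ x ∈ D, FLAG_conv k (e s) (e t) x = 0
  sum : ∀ x ∈ D, ∑ t ∈ T, e t x = Coalgebra.counit (R := k) x

/-- the component of `x` from `g` to `h` -/
noncomputable def Pp (e : GroupLike k H → Module.Dual k H) (g h : GroupLike k H) : H →ₗ[k] H :=
  (FLAG_R k (e g)) ∘ₗ (FLAG_L k (e h))

variable {k}
variable {D : Submodule k H} {T : Finset (GroupLike k H)} {e : GroupLike k H → Module.Dual k H}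

theorem Pp_apply (g h : GroupLike k H) (x : H) : Pp k e g h x = FLAG_R k (e g) (FLAG_L k (e h) x) := rfl

theorem Pp_apply' (g h : GroupLike k H) (x : H) : Pp k e g h x = FLAG_L k (e h) (FLAG_R k (e g) x) := by
  rw [Pp_apply, FLAG_LR]

theorem Pp_mem {D' : Submodule k H} (hD' : IsSubcoalgebra k D') (g h : GroupLike k H) {x : H} (hx : x ∈ D') :
    Pp k e g h x ∈ D' := by
  obtain ⟨h1, h2⟩ := (FLAG_sub_iff k D').1 hD'
  exact h2 _ _ (h1 _ _ hx)

theorem Idem.LL_self (I : Idem k D T e) {s : GroupLike k H} (hs : s ∈ T) {x : H} (hx : x ∈ D) :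
    FLAG_L k (e s) (FLAG_L k (e s) x) = FLAG_L k (e s) x := by
  rw [FLAG_LL]
  exact L_congr k I.sub (I.mul_self s hs) hx

theorem Idem.LL_ne (I : Idem k D T e) {s t : GroupLike k H} (hs : s ∈ T) (ht : t ∈ T) (hst : s ≠ t) {x : H}
    (hx : x ∈ D) : FLAG_L k (e s) (FLAG_L k (e t) x) = 0 := by
  rw [FLAG_LL, L_congr k I.sub (g := 0) (fun y hy => I.mul_ne s hs t ht hst y hy) hx, map_zero,
    LinearMap.zero_apply]

theorem Idem.RR_self (I : Idem k D T e) {s : GroupLike k H} (hs : s ∈ T) {x : H} (hx : x ∈ D) :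
    FLAG_R k (e s) (FLAG_R k (e s) x) = FLAG_R k (e s) x := by
  rw [FLAG_RR]
  exact R_congr k I.sub (I.mul_self s hs) hx

theorem Idem.RR_ne (I : Idem k D T e) {s t : GroupLike k H} (hs : s ∈ T) (ht : t ∈ T) (hst : s ≠ t) {x : H}
    (hx : x ∈ D) : FLAG_R k (e s) (FLAG_R k (e t) x) = 0 := by
  rw [FLAG_RR, R_congr k I.sub (g := 0) (fun y hy => I.mul_ne t ht s hs (Ne.symm hst) y hy) hx, map_zero,
    LinearMap.zero_apply]

theorem Idem.sumL (I : Idem k D T e) {x : H} (hx : x ∈ D) : ∑ t ∈ T, FLAG_L k (e t) x = x := by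
  rw [← LinearMap.sum_apply, ← map_sum]
  conv_rhs => rw [← FLAG_Lcounit k x]
  exact L_congr k I.sub (fun y hy => by rw [LinearMap.sum_apply]; exact I.sum y hy) hx

theorem Idem.sumR (I : Idem k D T e) {x : H} (hx : x ∈ D) : ∑ t ∈ T, FLAG_R k (e t) x = x := by
  rw [← LinearMap.sum_apply, ← map_sum]
  conv_rhs => rw [← FLAG_Rcounit k x]
  exact R_congr k I.sub (fun y hy => by rw [LinearMap.sum_apply]; exact I.sum y hy) hx

theorem Idem.L_mem (I : Idem k D T e) (f : Module.Dual k H) {x : H} (hx : x ∈ D) : FLAG_L k f x ∈ D :=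
  ((FLAG_sub_iff k D).1 I.sub).1 f x hx

theorem Idem.R_mem (I : Idem k D T e) (f : Module.Dual k H) {x : H} (hx : x ∈ D) : FLAG_R k f x ∈ D :=
  ((FLAG_sub_iff k D).1 I.sub).2 f x hx

theorem Idem.Pp_self (I : Idem k D T e) {g h : GroupLike k H} (hg : g ∈ T) (hh : h ∈ T) {x : H} (hx : x ∈ D) :
    Pp k e g h (Pp k e g h x) = Pp k e g h x := by
  have h1 : Pp k e g h (Pp k e g h x) = FLAG_R k (e g) (FLAG_L k (e h) (FLAG_L k (e h) (FLAG_R k (e g) x))) := by
    rw [Pp_apply g h (Pp k e g h x), Pp_apply' g h x]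
  rw [h1, I.LL_self hh (I.R_mem _ hx), ← FLAG_LR, I.RR_self hg hx, ← Pp_apply']

theorem Idem.Pp_grp_self (I : Idem k D T e) {g : GroupLike k H} (hg : g ∈ T) : Pp k e g g g.val = g.val := by
  rw [Pp_apply, L_grp, map_smul, R_grp, I.self g hg, one_smul, one_smul]

theorem Idem.Pp_grp_left (I : Idem k D T e) {g h t : GroupLike k H} (hg : g ∈ T) (ht : t ∈ T) (h1 : g ≠ t) :
    Pp k e g h t.val = 0 := by
  rw [Pp_apply, L_grp, map_smul, R_grp, I.ne g hg t ht h1, zero_smul, smul_zero]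

theorem Idem.Pp_grp_right (I : Idem k D T e) {g h t : GroupLike k H} (hh : h ∈ T) (ht : t ∈ T) (h1 : h ≠ t) :
    Pp k e g h t.val = 0 := by
  rw [Pp_apply, L_grp, I.ne h hh t ht h1, zero_smul, map_zero]

/-- the coproduct of a component -/
theorem Idem.comul_Pp (I : Idem k D T e) {g h : GroupLike k H} {x : H} (hx : x ∈ D) :
    Coalgebra.comul (R := k) (Pp k e g h x) =
      ∑ t ∈ T, TensorProduct.map (Pp k e g t) (Pp k e t h) (Coalgebra.comul (R := k) x) := by
  have h0 := I.sub x hx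
  have h1 : Coalgebra.comul (R := k) x =
      ∑ t ∈ T, LinearMap.lTensor H (FLAG_R k (e t)) (Coalgebra.comul (R := k) x) := by
    have h2 : tsp k D D ≤ LinearMap.ker (∑ t ∈ T, LinearMap.lTensor H (FLAG_R k (e t)) - LinearMap.id) := by
      rw [tsp_le]
      intro a ha b hb
      rw [LinearMap.mem_ker, LinearMap.sub_apply, LinearMap.sum_apply, LinearMap.id_apply, sub_eq_zero]
      simp only [LinearMap.lTensor_tmul]
      rw [← TensorProduct.tmul_sum, I.sumR hb]
    have h3 := h2 h0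
    rw [LinearMap.mem_ker, LinearMap.sub_apply, LinearMap.sum_apply, LinearMap.id_apply, sub_eq_zero] at h3
    exact h3.symm
  have h2 : ∀ t ∈ T, LinearMap.lTensor H (FLAG_R k (e t)) (Coalgebra.comul (R := k) x) =
      TensorProduct.map (FLAG_L k (e t)) (FLAG_R k (e t)) (Coalgebra.comul (R := k) x) := by
    intro t ht
    have h3 : TensorProduct.map (FLAG_L k (e t)) (FLAG_R k (e t)) (Coalgebra.comul (R := k) x) =
        LinearMap.lTensor H (FLAG_R k (e t)) (LinearMap.rTensor H (FLAG_L k (e t)) (Coalgebra.comul (R := k) x)) := by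
      rw [← LinearMap.comp_apply (LinearMap.lTensor H (FLAG_R k (e t))), LinearMap.lTensor_comp_rTensor]
    have h4 : LinearMap.lTensor H (FLAG_R k (e t)) (LinearMap.lTensor H (FLAG_R k (e t))
        (Coalgebra.comul (R := k) x)) = LinearMap.lTensor H (FLAG_R k (e t) ∘ₗ FLAG_R k (e t))
          (Coalgebra.comul (R := k) x) := by
      rw [LinearMap.lTensor_comp]
      rfl
    rw [h3, comul_mid, h4]
    exact map_congr_tsp k (A := D) (B := D) (fun _ _ => rfl) (fun y hy => (I.RR_self ht hy).symm) h0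
  have h3 : Coalgebra.comul (R := k) (Pp k e g h x) =
      TensorProduct.map (FLAG_R k (e g)) (FLAG_L k (e h)) (Coalgebra.comul (R := k) x) := by
    rw [Pp_apply, comul_R, comul_L, ← LinearMap.comp_apply (LinearMap.rTensor H (FLAG_R k (e g))),
      LinearMap.rTensor_comp_lTensor]
  rw [h3]
  conv_lhs => rw [h1]
  rw [map_sum]
  refine Finset.sum_congr rfl fun t ht => ?_
  rw [h2 t ht, ← LinearMap.comp_apply (TensorProduct.map (FLAG_R k (e g)) (FLAG_L k (e h))), ← TensorProduct.map_comp]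
  congr 2
  ext y
  rw [LinearMap.comp_apply, Pp_apply']

end ops

end Pool.Agent.GKX
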