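import Pool.Agent.Lib_helper2.GKX.X2

/-!
# Components between group-likes: skew-primitives and blocks
-/

set_option autoImplicit false

universe u v

namespace Pool.Agent.GKX

open TensorProduct Pool.Agent.GK Pool.Agent.GKP Pool.Agent.GKC Pool.Agent.GKU

section ops
variable {k : Type u} [Field k] {H : Type v} [Ring H] [HopfAlgebra k H]
variable {D : Submodule k H} {T : Finset (GroupLike k H)} {e : GroupLike k H → Module.Dual k H}

theorem Idem.span_left (I : Idem k D T e) {g h : GroupLike k H} (hg : g ∈ T) (hh : h ∈ T) (hgh : g ≠ h) {x : H}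
    (hx : x ∈ Submodule.span k (GroupLike.val '' (T : Set (GroupLike k H)))) : Pp k e g h x = 0 := by
  have h1 : Submodule.span k (GroupLike.val '' (T : Set (GroupLike k H))) ≤ LinearMap.ker (Pp k e g h) := by
    rw [Submodule.span_le]
    rintro _ ⟨t, ht, rfl⟩
    have ht' : t ∈ T := ht
    rw [SetLike.mem_coe, LinearMap.mem_ker]
    by_cases h2 : g = t
    · exact I.Pp_grp_right hh ht' (fun h3 => hgh (h2.trans h3.symm))
    · exact I.Pp_grp_left hg ht' h2
  exact h1 hx

theorem Idem.span_same (I : Idem k D T e) {g : GroupLike k H} (hg : g ∈ T) {x : H}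
    (hx : x ∈ Submodule.span k (GroupLike.val '' (T : Set (GroupLike k H)))) :
    Pp k e g g x ∈ Submodule.span k {g.val} := by
  have h1 : Submodule.span k (GroupLike.val '' (T : Set (GroupLike k H))) ≤
      (Submodule.span k {g.val}).comap (Pp k e g g) := by
    rw [Submodule.span_le]
    rintro _ ⟨t, ht, rfl⟩
    have ht' : t ∈ T := ht
    rw [SetLike.mem_coe, Submodule.mem_comap]
    by_cases h2 : g = t
    · subst h2
      rw [I.Pp_grp_self hg]
      exact Submodule.mem_span_singleton_self _
    · rw [I.Pp_grp_left hg ht' h2]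
      exact Submodule.zero_mem _
  exact h1 hx

theorem Idem.Z_inf (I : Idem k D T e) {E : Submodule k H} (hED : E ≤ D) {g h : GroupLike k H} (hg : g ∈ T)
    (hh : h ∈ T) (hgh : g ≠ h) {z : H} (hz : z ∈ E.map (Pp k e g h))
    (hzT : z ∈ Submodule.span k (GroupLike.val '' (T : Set (GroupLike k H)))) : z = 0 := by
  obtain ⟨x, hx, rfl⟩ := hz
  rw [← I.Pp_self hg hh (hED hx)]
  exact I.span_left hg hh hgh hzT

theorem counit_left {y g z z' h : H} (hc : Coalgebra.comul (R := k) y = g ⊗ₜ[k] z + z' ⊗ₜ[k] h)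
    (hg : Coalgebra.counit (R := k) g = 1) : y = z + Coalgebra.counit (R := k) z' • h := by
  have h1 := FLAG_Rcounit k y
  rw [FLAG_R_apply, hc] at h1
  rw [← h1]
  simp [hg]

theorem counit_right {y g z z' h : H} (hc : Coalgebra.comul (R := k) y = g ⊗ₜ[k] z + z' ⊗ₜ[k] h)
    (hh : Coalgebra.counit (R := k) h = 1) : y = Coalgebra.counit (R := k) z • g + z' := by
  have h1 := FLAG_Lcounit k y
  rw [FLAG_L_apply, hc] at h1
  rw [← h1]
  simp [hh]

theorem Idem.skew_ne (I : Idem k D T e) {E : Submodule k H} (hED : E ≤ D) {g h : GroupLike k H} (hg : g ∈ T)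
    (hh : h ∈ T) (hgh : g ≠ h) {y : H} (hy : y ∈ E.map (Pp k e g h))
    (hc : Coalgebra.comul (R := k) y ∈ tsp k (Submodule.span k {g.val}) (E.map (Pp k e g h)) ⊔
      tsp k (E.map (Pp k e g h)) (Submodule.span k {h.val})) :
    Coalgebra.comul (R := k) y = g.val ⊗ₜ[k] y + y ⊗ₜ[k] h.val := by
  obtain ⟨a, ha, b, hb, hab⟩ := Submodule.mem_sup.1 hc
  obtain ⟨z, hz, rfl⟩ := mem_tsp_left k ha
  obtain ⟨z', hz', rfl⟩ := mem_tsp_right k hb
  have h1 := counit_left hab.symm g.2.counit_eq_one
  have h2 := counit_right hab.symm h.2.counit_eq_one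
  have h3 : y - z = 0 := by
    refine I.Z_inf hED hg hh hgh (Submodule.sub_mem _ hy hz) ?_
    have : y - z = Coalgebra.counit (R := k) z' • h.val := by
      conv_lhs => rw [h1]
      abel
    rw [this]
    exact Submodule.smul_mem _ _ (Submodule.subset_span ⟨h, hh, rfl⟩)
  have h4 : y - z' = 0 := by
    refine I.Z_inf hED hg hh hgh (Submodule.sub_mem _ hy hz') ?_
    have : y - z' = Coalgebra.counit (R := k) z • g.val := by
      conv_lhs => rw [h2]
      abel
    rw [this]
    exact Submodule.smul_mem _ _ (Submodule.subset_span ⟨g, hg, rfl⟩)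
  rw [← hab, ← sub_eq_zero.1 h3, ← sub_eq_zero.1 h4]

theorem skew_eq {Z : Submodule k H} {g : GroupLike k H} {y : H}
    (hc : Coalgebra.comul (R := k) y ∈ tsp k (Submodule.span k {g.val}) Z ⊔ tsp k Z (Submodule.span k {g.val})) :
    Coalgebra.comul (R := k) (y - Coalgebra.counit (R := k) y • g.val) =
      g.val ⊗ₜ[k] (y - Coalgebra.counit (R := k) y • g.val) +
        (y - Coalgebra.counit (R := k) y • g.val) ⊗ₜ[k] g.val := by
  obtain ⟨a, ha, b, hb, hab⟩ := Submodule.mem_sup.1 hc
  obtain ⟨z, hz, rfl⟩ := mem_tsp_left k ha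
  obtain ⟨z', hz', rfl⟩ := mem_tsp_right k hb
  have h1 := counit_left hab.symm g.2.counit_eq_one
  have h2 := counit_right hab.symm g.2.counit_eq_one
  have h3 : Coalgebra.counit (R := k) y = Coalgebra.counit (R := k) z + Coalgebra.counit (R := k) z' := by
    conv_lhs => rw [h1]
    rw [map_add, map_smul, g.2.counit_eq_one, smul_eq_mul, mul_one]
  set a := Coalgebra.counit (R := k) z
  set b := Coalgebra.counit (R := k) z'
  have hz1 : z = y - b • g.val := by rw [h1]; abel
  have hz2 : z' = y - a • g.val := by rw [h2]; abel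
  rw [map_sub, map_smul, g.2.comul_eq_tmul_self, ← hab, h3, hz1, hz2]
  simp only [TensorProduct.tmul_sub, TensorProduct.sub_tmul, TensorProduct.tmul_smul, TensorProduct.smul_tmul',
    add_smul]
  simp only [TensorProduct.tmul_add, TensorProduct.add_tmul, TensorProduct.tmul_smul, TensorProduct.smul_tmul']
  abel

/-- the coproduct of a component, for the part with a group-like on one side -/
theorem Idem.step (I : Idem k D T e) {E : Submodule k H} {g h : GroupLike k H} (hg : g ∈ T) (hh : h ∈ T)
    {z : H ⊗[k] H} (hz : z ∈ tsp k E (Submodule.span k (GroupLike.val '' (T : Set (GroupLike k H)))) ⊔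
      tsp k (Submodule.span k (GroupLike.val '' (T : Set (GroupLike k H)))) E) :
    ∑ t ∈ T, TensorProduct.map (Pp k e g t) (Pp k e t h) z ∈
      tsp k (Submodule.span k {g.val}) (E.map (Pp k e g h)) ⊔
        tsp k (E.map (Pp k e g h)) (Submodule.span k {h.val}) := by
  refine Submodule.sum_mem _ fun t ht => ?_
  obtain ⟨a, ha, b, hb, rfl⟩ := Submodule.mem_sup.1 hz
  rw [map_add]
  refine Submodule.add_mem _ ?_ ?_
  · by_cases hth : t = h
    · subst hth
      have h5 : TensorProduct.map (Pp k e g t) (Pp k e t t) a ∈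
          tsp k (E.map (Pp k e g t)) (Submodule.span k {t.val}) :=
        map_mem_tsp k (fun x hx => Submodule.mem_map_of_mem hx) (fun x hx => I.span_same ht hx) ha
      exact Submodule.mem_sup_right h5
    · have h1 : TensorProduct.map (Pp k e g t) (Pp k e t h) a = TensorProduct.map (Pp k e g t) 0 a :=
        map_congr_tsp k (fun _ _ => rfl) (fun x hx => I.span_left ht hh hth hx) ha
      rw [h1, TensorProduct.map_zero_right, LinearMap.zero_apply]
      exact Submodule.zero_mem _
  · by_cases hth : g = t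
    · subst hth
      have h5 : TensorProduct.map (Pp k e g g) (Pp k e g h) b ∈
          tsp k (Submodule.span k {g.val}) (E.map (Pp k e g h)) :=
        map_mem_tsp k (fun x hx => I.span_same ht hx) (fun x hx => Submodule.mem_map_of_mem hx) hb
      exact Submodule.mem_sup_left h5
    · have h1 : TensorProduct.map (Pp k e g t) (Pp k e t h) b = TensorProduct.map 0 (Pp k e t h) b :=
        map_congr_tsp k (fun x hx => I.span_left hg ht hth hx) (fun _ _ => rfl) hb
      rw [h1, TensorProduct.map_zero_left, LinearMap.zero_apply]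
      exact Submodule.zero_mem _

/-- there is nothing between group-likes which are not related -/
theorem Idem.block (I : Idem k D T e) (hDf : D.FG)
    (hT : D ⊓ coradical k H = Submodule.span k (GroupLike.val '' (T : Set (GroupLike k H))))
    {rel : GroupLike k H → GroupLike k H → Prop} (hrefl : ∀ g, rel g g)
    (htrans : ∀ g t h, rel g t → rel t h → rel g h)
    (hno : ∀ g ∈ T, ∀ h ∈ T, ¬ rel g h → ∀ y : H,
      Coalgebra.comul (R := k) y = g.val ⊗ₜ[k] y + y ⊗ₜ[k] h.val →
        y ∈ Submodule.span k (GroupLike.val '' (T : Set (GroupLike k H))))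
    {g h : GroupLike k H} (hg : g ∈ T) (hh : h ∈ T) (hgh : ¬ rel g h) {x : H} (hx : x ∈ D) :
    Pp k e g h x = 0 := by
  obtain ⟨r, F, hF0, hFr, hmono, hFD, hFs, hFc⟩ := chain_of k (coradical k H) D (GKP.coradical_sub k) le_rfl hDf I.sub
  have key : ∀ i, ∀ g ∈ T, ∀ h ∈ T, ¬ rel g h → ∀ x ∈ F i, Pp k e g h x = 0 := by
    intro i
    induction i with
    | zero =>
      intro g hg h hh hgh x hx
      rw [hF0, hT] at hx
      exact I.span_left hg hh (fun h1 => hgh (h1 ▸ hrefl g)) hx
    | succ i ih =>
      intro g hg h hh hgh x hx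
      have hne : g ≠ h := fun h1 => hgh (h1 ▸ hrefl g)
      have hxD := hFD (i + 1) hx
      have h1 := hFc i x hx
      rw [hF0, hT] at h1
      obtain ⟨a, ha, w, hw, haw⟩ := Submodule.mem_sup.1 h1
      have h2 : Coalgebra.comul (R := k) (Pp k e g h x) ∈
          tsp k (Submodule.span k {g.val}) ((F (i + 1)).map (Pp k e g h)) ⊔
            tsp k ((F (i + 1)).map (Pp k e g h)) (Submodule.span k {h.val}) := by
        rw [I.comul_Pp hxD, ← haw]
        simp only [map_add]
        rw [Finset.sum_add_distrib]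
        refine Submodule.add_mem _ (I.step hg hh ha) ?_
        refine Submodule.sum_mem _ fun t ht => ?_
        have h3 : TensorProduct.map (Pp k e g t) (Pp k e t h) w = 0 := by
          by_cases hgt : rel g t
          · have hth : ¬ rel t h := fun h4 => hgh (htrans g t h hgt h4)
            rw [map_congr_tsp k (φ' := Pp k e g t) (ψ' := 0) (fun _ _ => rfl) (fun x hx => ih t ht h hh hth x hx) hw,
              TensorProduct.map_zero_right, LinearMap.zero_apply]
          · rw [map_congr_tsp k (φ' := 0) (ψ' := Pp k e t h) (fun x hx => ih g hg t ht hgt x hx) (fun _ _ => rfl) hw,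
              TensorProduct.map_zero_left, LinearMap.zero_apply]
        rw [h3]
        exact Submodule.zero_mem _
      have h3 : Pp k e g h x ∈ (F (i + 1)).map (Pp k e g h) := ⟨x, hx, rfl⟩
      exact I.Z_inf (hFD (i + 1)) hg hh hne h3 (hno g hg h hh hgh _ (I.skew_ne (hFD (i + 1)) hg hh hne h3 h2))
  exact key r g hg h hh hgh x (hFr ▸ hx)

/-- a pointed coalgebra of filtration degree one is spanned by group-likes and skew-primitives -/
theorem Idem.taft_wilson (I : Idem k D T e)
    (hw : ∀ x ∈ D, Coalgebra.comul (R := k) x ∈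
      tsp k D (Submodule.span k (GroupLike.val '' (T : Set (GroupLike k H)))) ⊔
        tsp k (Submodule.span k (GroupLike.val '' (T : Set (GroupLike k H)))) D)
    {W : Submodule k H} (hTW : ∀ t ∈ T, t.val ∈ W)
    (hW : ∀ g ∈ T, ∀ h ∈ T, ∀ y : H,
      Coalgebra.comul (R := k) y = g.val ⊗ₜ[k] y + y ⊗ₜ[k] h.val → y ∈ W) : D ≤ W := by
  intro x hx
  rw [← I.sumL hx]
  refine Submodule.sum_mem _ fun h hh => ?_
  rw [← I.sumR (I.L_mem (e h) hx)]
  refine Submodule.sum_mem _ fun g hg => ?_
  rw [← Pp_apply g h x]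
  have h2 : Coalgebra.comul (R := k) (Pp k e g h x) ∈
      tsp k (Submodule.span k {g.val}) (D.map (Pp k e g h)) ⊔
        tsp k (D.map (Pp k e g h)) (Submodule.span k {h.val}) := by
    rw [I.comul_Pp hx]
    exact I.step hg hh (hw x hx)
  by_cases hgh : g = h
  · subst hgh
    have h3 := hW g hg g hg _ (skew_eq h2)
    have h4 := W.add_mem h3 (W.smul_mem (Coalgebra.counit (R := k) (Pp k e g g x)) (hTW g hg))
    rwa [sub_add_cancel] at h4
  · exact hW g hg h hh _ (I.skew_ne le_rfl hg hh hgh ⟨x, hx, rfl⟩ h2)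

end ops

end Pool.Agent.GKX
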