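import Pool.Agent.Lib_helper2.GKX.X3
import Pool.Agent.Lib_helper54.GKP.PT

/-!
# The largest subcoalgebra with given group-likes
-/

set_option autoImplicit false

universe u v

namespace Pool.Agent.GKX

open TensorProduct Pool.Agent.GK Pool.Agent.GKP Pool.Agent.GKC Pool.Agent.GKU Pool.Agent.GKV Pool.Agent.GKW

section UN
variable (k : Type u) [Field k] {H : Type v} [Ring H] [HopfAlgebra k H]

/-- the subcoalgebras whose coradical is spanned by elements of `N` -/
def UNset (N : Set (GroupLike k H)) : Set (Submodule k H) :=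
  {D | IsSubcoalgebra k D ∧ D ⊓ coradical k H ≤ kS k N}

/-- the largest subcoalgebra whose coradical is spanned by elements of `N` -/
noncomputable def UN (N : Set (GroupLike k H)) : Submodule k H := sSup (UNset k N)

variable {k}
variable {N : Set (GroupLike k H)}

theorem UNset_sup {D D' : Submodule k H} (h : D ∈ UNset k N) (h' : D' ∈ UNset k N) : D ⊔ D' ∈ UNset k N := by
  refine ⟨cs_sup k h.1 h'.1, ?_⟩
  refine (cs_main k (cs_inf k (cs_sup k h.1 h'.1) (GKP.coradical_sub k)) inf_le_right).trans (sSup_le ?_)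
  rintro F ⟨hF, hFle⟩
  rcases cs_simple_sup k h.1 h'.1 hF (hFle.trans inf_le_left) with h1 | h1
  · exact (le_inf h1 (hFle.trans inf_le_right)).trans h.2
  · exact (le_inf h1 (hFle.trans inf_le_right)).trans h'.2

theorem mem_UN {x : H} : x ∈ UN k N ↔ ∃ D ∈ UNset k N, x ∈ D := by
  refine Submodule.mem_sSup_of_directed ⟨⊥, ?_, ?_⟩ ?_
  · intro x hx
    rw [Submodule.mem_bot] at hx
    rw [hx, map_zero]
    exact Submodule.zero_mem _
  · rw [bot_inf_eq]
    exact bot_le
  · intro D hD D' hD'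
    exact ⟨D ⊔ D', UNset_sup hD hD', le_sup_left, le_sup_right⟩

theorem mem_UN' {x : H} (hx : x ∈ UN k N) : ∃ D : Submodule k H, D.FG ∧ D ∈ UNset k N ∧ x ∈ D := by
  obtain ⟨D, hD, hxD⟩ := mem_UN.1 hx
  obtain ⟨Z, h1, h2, h3, h4⟩ := fund_in hD.1 (Submodule.fg_span_singleton x)
    ((Submodule.span_singleton_le_iff_mem _ _).2 hxD)
  exact ⟨Z, h1, ⟨h2, (inf_le_inf h4 le_rfl).trans hD.2⟩, h3 (Submodule.mem_span_singleton_self x)⟩

theorem le_UN {D : Submodule k H} (hD : D ∈ UNset k N) : D ≤ UN k N := le_sSup hD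

theorem UN_sub : IsSubcoalgebra k (UN k N) := by
  rw [UN, sSup_eq_iSup']
  exact cs_iSup k fun D => D.2.1

theorem UN_inf : UN k N ⊓ coradical k H = kS k N := by
  apply le_antisymm
  · rintro x ⟨hx, hxc⟩
    obtain ⟨D, hD, hxD⟩ := mem_UN.1 hx
    exact hD.2 ⟨hxD, hxc⟩
  · exact le_inf (le_UN ⟨kS_sub k N, inf_le_left⟩) (kS_le_cor k N)

theorem kS_mul_kS {N : Subgroup (GroupLike k H)} : kS k (N : Set (GroupLike k H)) * kS k (N : Set (GroupLike k H)) ≤
    kS k (N : Set (GroupLike k H)) := by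
  unfold kS
  rw [Submodule.span_mul_span, Submodule.span_le]
  rintro _ ⟨_, ⟨g, hg, rfl⟩, _, ⟨h, hh, rfl⟩, rfl⟩
  exact Submodule.subset_span ⟨g * h, N.mul_mem hg hh, GroupLike.val_mul g h⟩

theorem UN_bialg (N : Subgroup (GroupLike k H)) : IsSubbialgebra k (UN k (N : Set (GroupLike k H))) where
  one_mem := le_UN ⟨kS_sub k _, inf_le_left⟩ (Submodule.subset_span ⟨1, N.one_mem, rfl⟩)
  mul_mem := by
    intro a ha b hb
    obtain ⟨D, hDf, hD, haD⟩ := mem_UN' ha
    obtain ⟨D', hDf', hD', hbD⟩ := mem_UN' hb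
    refine le_UN ⟨GKC.sub_mul hD.1 hD'.1, ?_⟩ (Submodule.mul_mem_mul haD hbD)
    exact (nd_mul k hDf hDf' hD.1 hD'.1).trans ((mul_le_mul' hD.2 hD'.2).trans kS_mul_kS)
  sub := UN_sub

theorem kS_hopf (N : Subgroup (GroupLike k H)) : IsHopfSubalgebra k (kS k (N : Set (GroupLike k H))) where
  one_mem := Submodule.subset_span ⟨1, N.one_mem, rfl⟩
  mul_mem := fun a ha b hb => kS_mul_kS (Submodule.mul_mem_mul ha hb)
  sub := kS_sub k _
  antipode_mem := by
    intro x hx
    have h1 : kS k (N : Set (GroupLike k H)) ≤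
        (kS k (N : Set (GroupLike k H))).comap (HopfAlgebra.antipode k) := by
      conv_lhs => rw [kS]
      rw [Submodule.span_le]
      rintro _ ⟨g, hg, rfl⟩
      exact Submodule.subset_span ⟨g⁻¹, N.inv_mem hg, rfl⟩
    exact h1 hx

theorem UN_conj (N : Subgroup (GroupLike k H)) (hN : N.Normal) (g : GroupLike k H) {x : H}
    (hx : x ∈ UN k (N : Set (GroupLike k H))) : cj k g x ∈ UN k (N : Set (GroupLike k H)) := by
  obtain ⟨D, hD, hxD⟩ := mem_UN.1 hx
  refine le_UN (D := D.map (cj k g)) ⟨cj_sub k g hD.1, ?_⟩ ⟨x, hxD, rfl⟩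
  rintro _ ⟨⟨y, hy, rfl⟩, hc⟩
  have h1 : y ∈ coradical k H := by
    have := cor_cj g⁻¹ hc
    rwa [cj_inv_cj] at this
  have h2 : kS k (N : Set (GroupLike k H)) ≤ (kS k (N : Set (GroupLike k H))).comap (cj k g) := by
    conv_lhs => rw [kS]
    rw [Submodule.span_le]
    rintro _ ⟨n, hn, rfl⟩
    refine Submodule.subset_span ⟨g * n * g⁻¹, hN.conj_mem n hn g, ?_⟩
    rw [cj_apply, GroupLike.val_mul, GroupLike.val_mul, mul_assoc]
  exact h2 (hD.2 ⟨hy, h1⟩)

/-- the group-likes of a finite-dimensional pointed subcoalgebra -/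
theorem exists_T (hp : coradical k H = kS k (Set.univ : Set (GroupLike k H))) {D : Submodule k H}
    (hDf : D.FG) (hD : IsSubcoalgebra k D) : ∃ T : Finset (GroupLike k H),
      D ⊓ coradical k H = Submodule.span k (GroupLike.val '' (T : Set (GroupLike k H))) := by
  classical
  have h1 : D ⊓ coradical k H = Submodule.span k (GroupLike.val '' {g : GroupLike k H | g.val ∈ D}) := by
    apply le_antisymm
    · refine (cs_main k (cs_inf k hD (GKP.coradical_sub k)) inf_le_right).trans (sSup_le ?_)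
      rintro F ⟨hF, hFle⟩
      -- `F` is spanned by a group-like
      have h2 : F ≤ kS k (Set.univ : Set (GroupLike k H)) := hp ▸ (hFle.trans inf_le_right)
      obtain ⟨S, hS⟩ : ∃ S : Finset (GroupLike k H), F ≤ kS k (S : Set (GroupLike k H)) := by
        obtain ⟨s, hs⟩ := cs_fg k hF
        have h3 : ∀ x ∈ kS k (Set.univ : Set (GroupLike k H)), ∃ S : Finset (GroupLike k H),
            x ∈ kS k (S : Set (GroupLike k H)) := by
          intro x hx
          unfold kS at hx
          induction hx using Submodule.span_induction with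
          | mem y hy =>
            obtain ⟨g, -, rfl⟩ := hy
            exact ⟨{g}, Submodule.subset_span ⟨g, by simp, rfl⟩⟩
          | zero => exact ⟨∅, Submodule.zero_mem _⟩
          | add y z _ _ hy hz =>
            obtain ⟨S1, h1⟩ := hy
            obtain ⟨S2, h2⟩ := hz
            exact ⟨S1 ∪ S2, Submodule.add_mem _ (kS_mono k (by simp) h1) (kS_mono k (by simp) h2)⟩
          | smul a y _ hy =>
            obtain ⟨S1, h1⟩ := hy
            exact ⟨S1, Submodule.smul_mem _ _ h1⟩
        have h4 : ∀ x : H, ∃ S : Finset (GroupLike k H), x ∈ s → x ∈ kS k (S : Set (GroupLike k H)) := by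
          intro x
          by_cases hx : x ∈ s
          · obtain ⟨S, hS⟩ := h3 x (h2 (by rw [← hs]; exact Submodule.subset_span hx))
            exact ⟨S, fun _ => hS⟩
          · exact ⟨∅, fun h => absurd h hx⟩
        choose S hS using h4
        refine ⟨s.biUnion S, ?_⟩
        rw [← hs, Submodule.span_le]
        intro x hx
        refine kS_mono k ?_ (hS x hx)
        intro g hg
        simp only [Finset.coe_biUnion, Set.mem_iUnion]
        exact ⟨x, hx, hg⟩
      have h5 : F ≤ ⨆ g ∈ S, Submodule.span k {g.val} := by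
        refine hS.trans ?_
        rw [kS, Submodule.span_le]
        rintro _ ⟨g, hg, rfl⟩
        exact (le_iSup₂_of_le (f := fun (g : GroupLike k H) (_ : g ∈ S) => Submodule.span k {g.val}) g hg le_rfl)
          (Submodule.mem_span_singleton_self _)
      obtain ⟨g, hg, h6⟩ := simple_biSup hF S (fun g => Submodule.span k {g.val})
        (fun g _ => pt_grp_sub k g) h5
      have hnt : Nontrivial H := Bialgebra.nontrivial (R := k)
      have h7 : F = Submodule.span k {g.val} := by
        rcases (pt_grp_simple k g).2.2 F hF.1 h6 with h8 | h8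
        · exact absurd h8 hF.2.1
        · exact h8
      rw [h7, Submodule.span_singleton_le_iff_mem]
      refine Submodule.subset_span ⟨g, ?_, rfl⟩
      exact (hFle.trans inf_le_left) (h7 ▸ Submodule.mem_span_singleton_self _)
    · rw [Submodule.span_le]
      rintro _ ⟨g, hg, rfl⟩
      exact ⟨hg, grp_mem_cor k g⟩
  have h2 : (Submodule.span k (GroupLike.val '' {g : GroupLike k H | g.val ∈ D})).FG := by
    rw [← h1]
    exact fg_of_le k hDf inf_le_left
  obtain ⟨s, hs, hs'⟩ := (Submodule.fg_span_iff_fg_span_finset_subset _).1 h2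
  have h3 : ∀ x ∈ s, ∃ g : GroupLike k H, g.val ∈ D ∧ g.val = x := by
    intro x hx
    obtain ⟨g, hg, rfl⟩ := hs hx
    exact ⟨g, hg, rfl⟩
  choose! G hG1 hG2 using h3
  refine ⟨s.image G, ?_⟩
  rw [h1, hs']
  congr 1
  ext x
  constructor
  · intro hx
    exact ⟨G x, by simpa using ⟨x, hx, rfl⟩, hG2 x hx⟩
  · rintro ⟨g, hg, rfl⟩
    obtain ⟨x, hx, rfl⟩ := Finset.mem_image.1 (Finset.mem_coe.1 hg)
    rw [hG2 x hx]
    exact hx

end UN

end Pool.Agent.GKX
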