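import Pool.Agent.Lib_helper2.GKX.X4

/-!
# The decomposition of a pointed Hopf algebra over the cosets of a normal subgroup
-/

set_option autoImplicit false

universe u v

namespace Pool.Agent.GKX

open TensorProduct Pool.Agent.GK Pool.Agent.GKP Pool.Agent.GKC Pool.Agent.GKU Pool.Agent.GKV Pool.Agent.GKW

section dec
variable {k : Type u} [Field k] {H : Type v} [Ring H] [HopfAlgebra k H]
variable {D : Submodule k H} {T : Finset (GroupLike k H)} {e : GroupLike k H → Module.Dual k H}

open scoped Classical in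
/-- the sum of the idempotents which are related to `t` -/
noncomputable def ff (T : Finset (GroupLike k H)) (e : GroupLike k H → Module.Dual k H)
    (rel : GroupLike k H → GroupLike k H → Prop) (t : GroupLike k H) : Module.Dual k H :=
  ∑ s ∈ T.filter (fun s => rel s t), e s

variable {rel : GroupLike k H → GroupLike k H → Prop}

open scoped Classical in
theorem ff_R (t : GroupLike k H) (x : H) :
    FLAG_R k (ff T e rel t) x = ∑ s ∈ T.filter (fun s => rel s t), FLAG_R k (e s) x := by
  rw [ff, map_sum, LinearMap.sum_apply]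

open scoped Classical in
theorem ff_L (t : GroupLike k H) (x : H) :
    FLAG_L k (ff T e rel t) x = ∑ s ∈ T.filter (fun s => rel s t), FLAG_L k (e s) x := by
  rw [ff, map_sum, LinearMap.sum_apply]

open scoped Classical in
theorem Idem.ff_LR (I : Idem k D T e) (hsymm : ∀ g h, rel g h → rel h g)
    (htrans : ∀ g t h, rel g t → rel t h → rel g h)
    (hblock : ∀ g ∈ T, ∀ h ∈ T, ¬ rel g h → ∀ x ∈ D, Pp k e g h x = 0) (t : GroupLike k H) {x : H} (hx : x ∈ D) :
    FLAG_R k (ff T e rel t) x = FLAG_L k (ff T e rel t) x := by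
  rw [ff_R, ff_L]
  have h1 : ∀ s ∈ T.filter (fun s => rel s t), FLAG_R k (e s) x =
      ∑ h ∈ T.filter (fun s => rel s t), Pp k e s h x := by
    intro s hs
    rw [Finset.mem_filter] at hs
    have h2 : FLAG_R k (e s) x = ∑ h ∈ T, Pp k e s h x := by
      conv_lhs => rw [← I.sumL (I.R_mem (e s) hx)]
      exact Finset.sum_congr rfl fun h _ => (Pp_apply' s h x).symm
    rw [h2, Finset.sum_filter]
    refine Finset.sum_congr rfl fun h hh => ?_
    split_ifs with h3
    · rfl
    · exact hblock s hs.1 h hh (fun h4 => h3 (htrans h s t (hsymm s h h4) hs.2)) x hx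
  have h1' : ∀ h ∈ T.filter (fun s => rel s t), FLAG_L k (e h) x =
      ∑ s ∈ T.filter (fun s => rel s t), Pp k e s h x := by
    intro h hh
    rw [Finset.mem_filter] at hh
    have h2 : FLAG_L k (e h) x = ∑ s ∈ T, Pp k e s h x := by
      conv_lhs => rw [← I.sumR (I.L_mem (e h) hx)]
      exact Finset.sum_congr rfl fun s _ => (Pp_apply s h x).symm
    rw [h2, Finset.sum_filter]
    refine Finset.sum_congr rfl fun s hs => ?_
    split_ifs with h3
    · rfl
    · exact hblock s hs h hh.1 (fun h4 => h3 (htrans s h t h4 hh.2)) x hx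
  rw [Finset.sum_congr rfl h1, Finset.sum_congr rfl h1', Finset.sum_comm]

open scoped Classical in
theorem Idem.ff_R_R (I : Idem k D T e) {s t : GroupLike k H} (hs : s ∈ T) (hst : rel s t) {x : H} (hx : x ∈ D) :
    FLAG_R k (ff T e rel t) (FLAG_R k (e s) x) = FLAG_R k (e s) x := by
  rw [ff_R, Finset.sum_eq_single s]
  · exact I.RR_self hs hx
  · intro s' hs' hne
    rw [Finset.mem_filter] at hs'
    exact I.RR_ne hs'.1 hs hne hx
  · intro h
    exact absurd (Finset.mem_filter.2 ⟨hs, hst⟩) h

open scoped Classical in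
theorem Idem.ff_idem (I : Idem k D T e) (t : GroupLike k H) {x : H} (hx : x ∈ D) :
    FLAG_R k (ff T e rel t) (FLAG_R k (ff T e rel t) x) = FLAG_R k (ff T e rel t) x := by
  conv_lhs => rw [ff_R t x]
  rw [map_sum, ff_R]
  refine Finset.sum_congr rfl fun s hs => ?_
  rw [Finset.mem_filter] at hs
  exact I.ff_R_R hs.1 hs.2 hx

/-- the part of `D` over the class of `t` is a subcoalgebra -/
theorem Idem.ff_sub (I : Idem k D T e) (hsymm : ∀ g h, rel g h → rel h g)
    (htrans : ∀ g t h, rel g t → rel t h → rel g h)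
    (hblock : ∀ g ∈ T, ∀ h ∈ T, ¬ rel g h → ∀ x ∈ D, Pp k e g h x = 0) (t : GroupLike k H) :
    IsSubcoalgebra k (D.map (FLAG_R k (ff T e rel t))) := by
  rintro _ ⟨x, hx, rfl⟩
  set f := ff T e rel t with hf
  have h1 : FLAG_R k f x = FLAG_L k f (FLAG_R k f x) := by
    rw [← I.ff_LR hsymm htrans hblock t (I.R_mem _ hx), I.ff_idem t hx]
  have h2 : Coalgebra.comul (R := k) (FLAG_L k f (FLAG_R k f x)) =
      TensorProduct.map (FLAG_R k f) (FLAG_L k f) (Coalgebra.comul (R := k) x) := by
    rw [comul_L, comul_R, ← LinearMap.comp_apply (LinearMap.lTensor H (FLAG_L k f)),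
      LinearMap.lTensor_comp_rTensor]
  rw [h1, h2]
  refine map_mem_tsp k (fun y hy => Submodule.mem_map_of_mem hy) (fun y hy => ?_) (I.sub x hx)
  rw [← I.ff_LR hsymm htrans hblock t hy]
  exact Submodule.mem_map_of_mem hy

/-- its coradical -/
theorem Idem.ff_cor (I : Idem k D T e)
    (hT : D ⊓ coradical k H = Submodule.span k (GroupLike.val '' (T : Set (GroupLike k H)))) (t : GroupLike k H) :
    D.map (FLAG_R k (ff T e rel t)) ⊓ coradical k H ≤ kS k {s | rel s t} := by
  classical
  rintro z ⟨⟨x, hx, hxz⟩, hzc⟩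
  have hzD : z ∈ D := hxz ▸ I.R_mem _ hx
  have hzz : FLAG_R k (ff T e rel t) z = z := by
    rw [← hxz]
    exact I.ff_idem t hx
  have h1 : z ∈ Submodule.span k (GroupLike.val '' (T : Set (GroupLike k H))) := hT ▸ ⟨hzD, hzc⟩
  have h2 : Submodule.span k (GroupLike.val '' (T : Set (GroupLike k H))) ≤
      (kS k {s | rel s t}).comap (FLAG_R k (ff T e rel t)) := by
    rw [Submodule.span_le]
    rintro _ ⟨s, hs, rfl⟩
    have hs' : s ∈ T := hs
    rw [SetLike.mem_coe, Submodule.mem_comap, ff_R]
    refine Submodule.sum_mem _ fun s' hs'' => ?_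
    rw [Finset.mem_filter] at hs''
    rw [R_grp]
    by_cases h : s' = s
    · subst h
      exact Submodule.smul_mem _ _ (Submodule.subset_span ⟨s', hs''.2, rfl⟩)
    · rw [I.ne s' hs''.1 s hs' h, zero_smul]
      exact Submodule.zero_mem _
  rw [← hzz]
  exact h2 h1

/-- a pointed Hopf algebra is the sum of the translates of `UN N` if there are no nontrivial
skew-primitives between different cosets of `N` -/
theorem UN_span (hp : coradical k H = kS k (Set.univ : Set (GroupLike k H)))
    (hidem : ∀ (D : Submodule k H) (T : Finset (GroupLike k H)), D.FG → IsSubcoalgebra k D →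
      D ⊓ coradical k H = Submodule.span k (GroupLike.val '' (T : Set (GroupLike k H))) →
        ∃ e : GroupLike k H → Module.Dual k H, Idem k D T e)
    (N : Subgroup (GroupLike k H))
    (hlink : ∀ (g : GroupLike k H) (x : H), Coalgebra.comul (R := k) x = x ⊗ₜ[k] 1 + g.val ⊗ₜ[k] x →
      g ∈ N ∨ ∃ c : k, x = c • (1 - g.val)) :
    UN k (N : Set (GroupLike k H)) * kS k (Set.univ : Set (GroupLike k H)) = ⊤ := by
  rw [eq_top_iff]
  intro x _
  obtain ⟨D, hxD, -, hDf, hD⟩ := cs_fund k (Submodule.fg_span_singleton (R := k) x)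
  have hx : x ∈ D := hxD (Submodule.mem_span_singleton_self x)
  obtain ⟨T, hT⟩ := exists_T hp hDf hD
  obtain ⟨e, I⟩ := hidem D T hDf hD hT
  set rel : GroupLike k H → GroupLike k H → Prop := fun g h => g * h⁻¹ ∈ N with hrel
  have hrefl : ∀ g, rel g g := fun g => by
    simp only [hrel, mul_inv_cancel]
    exact N.one_mem
  have hsymm : ∀ g h, rel g h → rel h g := fun g h h1 => by
    have := N.inv_mem h1
    simpa only [hrel, mul_inv_rev, inv_inv] using this
  have htrans : ∀ g t h, rel g t → rel t h → rel g h := fun g t h h1 h2 => by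
    have := N.mul_mem h1 h2
    simpa only [hrel, inv_mul_cancel_left, mul_assoc] using this
  have hblock : ∀ g ∈ T, ∀ h ∈ T, ¬ rel g h → ∀ x ∈ D, Pp k e g h x = 0 := by
    intro g hg h hh hgh x hx
    refine I.block hDf hT hrefl htrans ?_ hg hh hgh hx
    intro g hg h hh hgh y hy
    have h1 : Coalgebra.comul (R := k) (y * (h⁻¹).val) = (y * (h⁻¹).val) ⊗ₜ[k] 1 +
        (g * h⁻¹).val ⊗ₜ[k] (y * (h⁻¹).val) := by
      rw [Bialgebra.comul_mul, hy, (h⁻¹).2.comul_eq_tmul_self, add_mul, Algebra.TensorProduct.tmul_mul_tmul,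
        Algebra.TensorProduct.tmul_mul_tmul, grp_mul_inv, GroupLike.val_mul, add_comm]
    rcases hlink _ _ h1 with h2 | ⟨c, h2⟩
    · exact absurd h2 hgh
    · have h3 : y = c • (h.val - g.val) := by
        have h4 : y = (y * (h⁻¹).val) * h.val := by rw [mul_assoc, grp_inv_mul, mul_one]
        rw [h4, h2, smul_mul_assoc, _root_.sub_mul, one_mul, GroupLike.val_mul, mul_assoc, grp_inv_mul, mul_one]
      rw [h3]
      exact Submodule.smul_mem _ _ (Submodule.sub_mem _ (Submodule.subset_span ⟨h, hh, rfl⟩)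
        (Submodule.subset_span ⟨g, hg, rfl⟩))
  have key : ∀ t ∈ T, ∀ y ∈ D.map (FLAG_R k (ff T e rel t)),
      y ∈ UN k (N : Set (GroupLike k H)) * kS k (Set.univ : Set (GroupLike k H)) := by
    intro t ht y hy
    have hsub := I.ff_sub hsymm htrans hblock t
    have hcor := I.ff_cor (rel := rel) hT t
    have h1 : (D.map (FLAG_R k (ff T e rel t))).map (LinearMap.mulRight k (t⁻¹).val) ∈
        UNset k (N : Set (GroupLike k H)) := by
      refine ⟨sub_mulRight t⁻¹ _ hsub, ?_⟩
      rintro _ ⟨⟨z, hz, rfl⟩, hc⟩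
      rw [LinearMap.mulRight_apply] at hc ⊢
      have h2 : z ∈ coradical k H := by
        have := cor_mul_grp t hc
        rwa [mul_assoc, grp_inv_mul, mul_one] at this
      have h3 := hcor ⟨hz, h2⟩
      have h4 : kS k {s | rel s t} ≤ (kS k (N : Set (GroupLike k H))).comap (LinearMap.mulRight k (t⁻¹).val) := by
        conv_lhs => rw [kS]
        rw [Submodule.span_le]
        rintro _ ⟨s, hs, rfl⟩
        rw [SetLike.mem_coe, Submodule.mem_comap, LinearMap.mulRight_apply, ← GroupLike.val_mul]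
        exact Submodule.subset_span ⟨s * t⁻¹, hs, rfl⟩
      exact h4 h3
    have h5 : y = (y * (t⁻¹).val) * t.val := by rw [mul_assoc, grp_inv_mul, mul_one]
    rw [h5]
    exact Submodule.mul_mem_mul (le_UN h1 ⟨y, hy, rfl⟩) (Submodule.subset_span ⟨t, trivial, rfl⟩)
  rw [← I.sumR hx]
  refine Submodule.sum_mem _ fun t ht => key t ht _ ?_
  exact ⟨FLAG_R k (e t) x, I.R_mem _ hx, I.ff_R_R ht (hrefl t) hx⟩

end dec

end Pool.Agent.GKX
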