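import Pool.Agent.Lib_helper2.GKX.X5

/-!
# Locally nilpotent operators, and the unipotent action
-/

set_option autoImplicit false

universe u v w

namespace Pool.Agent.GKX

open TensorProduct Pool.Agent.GK Pool.Agent.GKP Pool.Agent.GKC Pool.Agent.GKU Pool.Agent.GKV Pool.Agent.GKW

section nil
variable {k : Type u} [Field k] {M : Type w} [AddCommGroup M] [Module k M]

theorem nil_le {ψ : M →ₗ[k] M} {x : M} {n m : ℕ} (h : (ψ ^ n) x = 0) (hnm : n ≤ m) : (ψ ^ m) x = 0 := by
  obtain ⟨c, rfl⟩ := Nat.exists_eq_add_of_le hnm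
  rw [add_comm, pow_add, Module.End.mul_apply, h, map_zero]

/-- the vectors killed by a power of `ψ` -/
def Nil (ψ : M →ₗ[k] M) : Submodule k M where
  carrier := {x | ∃ n : ℕ, (ψ ^ n) x = 0}
  zero_mem' := ⟨0, by simp⟩
  add_mem' := by
    rintro x y ⟨n, hn⟩ ⟨m, hm⟩
    refine ⟨max n m, ?_⟩
    rw [map_add, nil_le hn (le_max_left _ _), nil_le hm (le_max_right _ _), add_zero]
  smul_mem' := by
    rintro c x ⟨n, hn⟩
    exact ⟨n, by rw [map_smul, hn, smul_zero]⟩

theorem mem_Nil {ψ : M →ₗ[k] M} {x : M} : x ∈ Nil ψ ↔ ∃ n : ℕ, (ψ ^ n) x = 0 := Iff.rfl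

theorem Nil_add {A B : M →ₗ[k] M} (hc : Commute A B) {x : M} (hA : ∀ j : ℕ, (B ^ j) x ∈ Nil A)
    (hB : x ∈ Nil B) : x ∈ Nil (A + B) := by
  obtain ⟨n2, hn2⟩ := hB
  choose N hN using hA
  refine ⟨∑ j ∈ Finset.range n2, N j + n2, ?_⟩
  set n := ∑ j ∈ Finset.range n2, N j + n2 with hn
  rw [hc.add_pow, LinearMap.sum_apply]
  refine Finset.sum_eq_zero fun m _ => ?_
  rw [Module.End.mul_apply, Module.End.natCast_apply, map_nsmul, Module.End.mul_apply]
  have h1 : (A ^ m) ((B ^ (n - m)) x) = 0 := by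
    by_cases h : n2 ≤ n - m
    · rw [nil_le hn2 h, map_zero]
    · push Not at h
      refine nil_le (hN (n - m)) ?_
      have h2 : N (n - m) ≤ ∑ j ∈ Finset.range n2, N j :=
        Finset.single_le_sum (fun _ _ => Nat.zero_le _) (Finset.mem_range.2 h)
      omega
  rw [h1, smul_zero]

theorem map_pow_apply (f g : M →ₗ[k] M) (n : ℕ) (x y : M) :
    (TensorProduct.map f g ^ n) (x ⊗ₜ[k] y) = (f ^ n) x ⊗ₜ[k] (g ^ n) y := by
  induction n generalizing x y with
  | zero => simp
  | succ n ih => rw [pow_succ, Module.End.mul_apply, TensorProduct.map_tmul, ih, pow_succ, pow_succ,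
      Module.End.mul_apply, Module.End.mul_apply]

/-- if `φ` is locally unipotent on `x` and `y` then `φ ⊗ φ` is so on `x ⊗ y` -/
theorem Nil_tmul {φ : M →ₗ[k] M} {x y : M} (hx : x ∈ Nil (φ - 1)) (hy : y ∈ Nil (φ - 1)) :
    x ⊗ₜ[k] y ∈ Nil (TensorProduct.map φ φ - 1) := by
  set ψ : M →ₗ[k] M := φ - 1 with hψ
  have h1 : TensorProduct.map φ φ - 1 = TensorProduct.map ψ φ + TensorProduct.map (1 : M →ₗ[k] M) ψ := by
    ext a b
    simp only [hψ, TensorProduct.AlgebraTensorModule.curry_apply, LinearMap.restrictScalars_self,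
      TensorProduct.curry_apply, LinearMap.sub_apply, LinearMap.add_apply, TensorProduct.map_tmul,
      Module.End.one_apply, TensorProduct.sub_tmul, TensorProduct.tmul_sub]
    abel
  rw [h1]
  have hc : Commute φ ψ := by
    rw [hψ]
    exact (Commute.refl φ).sub_right (Commute.one_right φ)
  have hc2 : Commute (TensorProduct.map ψ φ) (TensorProduct.map (1 : M →ₗ[k] M) ψ) := by
    unfold Commute SemiconjBy
    rw [← TensorProduct.map_mul, ← TensorProduct.map_mul, mul_one, one_mul, hc.eq]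
  obtain ⟨n, hn⟩ := hx
  refine Nil_add hc2 (fun j => ⟨n, ?_⟩) ?_
  · rw [map_pow_apply, map_pow_apply, one_pow, Module.End.one_apply, hn, TensorProduct.zero_tmul]
  · obtain ⟨m, hm⟩ := hy
    exact ⟨m, by rw [map_pow_apply, hm, TensorProduct.tmul_zero]⟩

end nil

section uni
variable {k : Type u} [Field k] {H : Type v} [Ring H] [HopfAlgebra k H]

theorem Nil_tsp {φ : H →ₗ[k] H} {A B : Submodule k H} (hA : A ≤ Nil (φ - 1)) (hB : B ≤ Nil (φ - 1)) :
    tsp k A B ≤ Nil (TensorProduct.map φ φ - 1) := by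
  rw [tsp_le]
  intro a ha b hb
  exact Nil_tmul (hA ha) (hB hb)

theorem comul_pow (g : GroupLike k H) (n : ℕ) (x : H) :
    Coalgebra.comul (R := k) (((cj k g - 1) ^ n) x) =
      ((TensorProduct.map (cj k g) (cj k g) - 1) ^ n) (Coalgebra.comul (R := k) x) := by
  induction n generalizing x with
  | zero => simp
  | succ n ih =>
    rw [pow_succ, Module.End.mul_apply, ih, pow_succ, Module.End.mul_apply, LinearMap.sub_apply, map_sub, cj_comul,
      LinearMap.sub_apply, Module.End.one_apply, Module.End.one_apply]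

/-- `(φ - 1)` acts on `H ⊗ T` through the first factor if `φ` fixes `T` -/
theorem Nil_stay {φ : H →ₗ[k] H} {A : Submodule k H} (hA : ∀ x ∈ A, φ x = x) (n : ℕ) {t : H ⊗[k] H}
    (ht : t ∈ tsp k ⊤ A ⊔ tsp k A ⊤) : ((TensorProduct.map φ φ - 1) ^ n) t ∈ tsp k ⊤ A ⊔ tsp k A ⊤ := by
  induction n generalizing t with
  | zero => simpa using ht
  | succ n ih =>
    rw [pow_succ, Module.End.mul_apply]
    apply ih
    rw [LinearMap.sub_apply, Module.End.one_apply]
    refine Submodule.sub_mem _ ?_ ht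
    obtain ⟨a, ha, b, hb, rfl⟩ := Submodule.mem_sup.1 ht
    rw [map_add]
    exact Submodule.add_mem_sup (map_mem_tsp k (fun _ _ => Submodule.mem_top) (fun x hx => by rw [hA x hx]; exact hx) ha)
      (map_mem_tsp k (fun x hx => by rw [hA x hx]; exact hx) (fun _ _ => Submodule.mem_top) hb)

/-- the wedge of the span of `S` with itself -/
noncomputable def wd2 (A : Submodule k H) : Submodule k H :=
  (tsp k ⊤ A ⊔ tsp k A ⊤).comap (Coalgebra.comul (R := k))

theorem wd2_sub {A : Submodule k H} (hA : IsSubcoalgebra k A) : IsSubcoalgebra k (wd2 A) := by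
  obtain ⟨hL, hR⟩ := (FLAG_sub_iff k A).1 hA
  rw [FLAG_sub_iff]
  constructor
  · intro f x hx
    rw [wd2, Submodule.mem_comap, comul_L]
    rw [wd2, Submodule.mem_comap] at hx
    obtain ⟨a, ha, b, hb, hab⟩ := Submodule.mem_sup.1 hx
    rw [← hab, map_add]
    exact Submodule.add_mem_sup (map_mem_tsp k (φ := LinearMap.id) (fun _ _ => Submodule.mem_top) (fun x hx => hL f x hx) ha)
      (map_mem_tsp k (φ := LinearMap.id) (fun x hx => hx) (fun _ _ => Submodule.mem_top) hb)
  · intro f x hx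
    rw [wd2, Submodule.mem_comap, comul_R]
    rw [wd2, Submodule.mem_comap] at hx
    obtain ⟨a, ha, b, hb, hab⟩ := Submodule.mem_sup.1 hx
    rw [← hab, map_add]
    exact Submodule.add_mem_sup (map_mem_tsp k (ψ := LinearMap.id) (fun _ _ => Submodule.mem_top) (fun x hx => hx) ha)
      (map_mem_tsp k (ψ := LinearMap.id) (fun x hx => hR f x hx) (fun _ _ => Submodule.mem_top) hb)

theorem le_wd2 {A : Submodule k H} (hA : IsSubcoalgebra k A) : A ≤ wd2 A := fun x hx =>
  Submodule.mem_sup_left (tsp_mono k le_top le_rfl (hA x hx))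

/-- elements of filtration degree one lie in every subspace which contains the group-likes and the
skew-primitives -/
theorem wd2_le (hidem : ∀ (D : Submodule k H) (T : Finset (GroupLike k H)), D.FG → IsSubcoalgebra k D →
      D ⊓ coradical k H = Submodule.span k (GroupLike.val '' (T : Set (GroupLike k H))) →
        ∃ e : GroupLike k H → Module.Dual k H, Idem k D T e)
    (T : Finset (GroupLike k H)) {W : Submodule k H} (hTW : ∀ t ∈ T, t.val ∈ W)
    (hW : ∀ g ∈ T, ∀ h ∈ T, ∀ y : H,
      Coalgebra.comul (R := k) y = g.val ⊗ₜ[k] y + y ⊗ₜ[k] h.val → y ∈ W) :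
    wd2 (kS k (T : Set (GroupLike k H))) ≤ W := by
  intro y hy
  have hT := kS_sub k (T : Set (GroupLike k H))
  obtain ⟨D, hDf, hD, hle, hDE⟩ := fund_in (wd2_sub hT)
    (X := Submodule.span k {y} ⊔ kS k (T : Set (GroupLike k H)))
    ((Submodule.fg_span_singleton y).sup (kS_fg k T))
    (sup_le ((Submodule.span_singleton_le_iff_mem _ _).2 hy) (le_wd2 hT))
  have hTD : kS k (T : Set (GroupLike k H)) ≤ D := le_sup_right.trans hle
  have hyD : y ∈ D := hle (Submodule.mem_sup_left (Submodule.mem_span_singleton_self y))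
  have hw : ∀ x ∈ D, Coalgebra.comul (R := k) x ∈
      tsp k D (kS k (T : Set (GroupLike k H))) ⊔ tsp k (kS k (T : Set (GroupLike k H))) D := by
    intro x hx
    obtain ⟨ρ, hρ, hρm⟩ := exists_proj k D
    have h1 : TensorProduct.map ρ ρ (Coalgebra.comul (R := k) x) = Coalgebra.comul (R := k) x := by
      rw [map_congr_tsp k (φ' := LinearMap.id) (ψ' := LinearMap.id) hρ hρ (hD x hx), TensorProduct.map_id,
        LinearMap.id_apply]
    rw [← h1]
    obtain ⟨a, ha, b, hb, hab⟩ := Submodule.mem_sup.1 (show Coalgebra.comul (R := k) x ∈ _ from hDE hx)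
    rw [← hab, map_add]
    exact Submodule.add_mem_sup
      (map_mem_tsp k (fun x _ => hρm x) (fun x hx => by rw [hρ x (hTD hx)]; exact hx) ha)
      (map_mem_tsp k (fun x hx => by rw [hρ x (hTD hx)]; exact hx) (fun x _ => hρm x) hb)
  have hcor : D ⊓ coradical k H = Submodule.span k (GroupLike.val '' (T : Set (GroupLike k H))) := by
    apply le_antisymm
    · refine (cs_main k (cs_inf k hD (GKP.coradical_sub k)) inf_le_right).trans (sSup_le ?_)
      rintro F ⟨hF, hFle⟩
      refine simple_step k hF (P := D) (Q0 := kS k (T : Set (GroupLike k H))) hT le_rfl fun x hx => ?_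
      exact (le_sup_left : _ ≤ _ ⊔ tsp k (kS k (T : Set (GroupLike k H))) (kS k (T : Set (GroupLike k H))))
        (hw x (hFle hx).1)
    · exact le_inf hTD (kS_le_cor k _)
  obtain ⟨e, I⟩ := hidem D T hDf hD hcor
  exact I.taft_wilson hw hTW hW hyD

/-- a group-like which acts locally unipotently on the skew-primitives acts so on `UN N` -/
theorem UN_uni (hp : coradical k H = kS k (Set.univ : Set (GroupLike k H)))
    (hidem : ∀ (D : Submodule k H) (T : Finset (GroupLike k H)), D.FG → IsSubcoalgebra k D →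
      D ⊓ coradical k H = Submodule.span k (GroupLike.val '' (T : Set (GroupLike k H))) →
        ∃ e : GroupLike k H → Module.Dual k H, Idem k D T e)
    (N : Subgroup (GroupLike k H)) (hNc : ∀ a ∈ N, ∀ b ∈ N, a * b = b * a)
    (g : GroupLike k H) (hg : g ∈ N)
    (huni : ∀ h ∈ N, ∀ x : H, Coalgebra.comul (R := k) x = x ⊗ₜ[k] 1 + h.val ⊗ₜ[k] x → x ∈ Nil (cj k g - 1)) :
    UN k (N : Set (GroupLike k H)) ≤ Nil (cj k g - 1) := by
  have hfix : ∀ h ∈ N, cj k g h.val = h.val := by
    intro h hh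
    rw [cj_apply, ← mul_assoc, ← GroupLike.val_mul, hNc g hg h hh, GroupLike.val_mul, mul_assoc, grp_mul_inv,
      mul_one]
  have hfix' : ∀ x ∈ kS k (N : Set (GroupLike k H)), cj k g x = x := by
    intro x hx
    unfold kS at hx
    induction hx using Submodule.span_induction with
    | mem y hy =>
      obtain ⟨h, hh, rfl⟩ := hy
      exact hfix h hh
    | zero => rw [map_zero]
    | add y z _ _ hy hz => rw [map_add, hy, hz]
    | smul t y _ hy => rw [map_smul, hy]
  -- skew-primitives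
  have hskew : ∀ g' ∈ N, ∀ h ∈ N, ∀ y : H,
      Coalgebra.comul (R := k) y = g'.val ⊗ₜ[k] y + y ⊗ₜ[k] h.val → y ∈ Nil (cj k g - 1) := by
    intro g' hg' h hh y hy
    have h1 : Coalgebra.comul (R := k) (y * (h⁻¹).val) = (y * (h⁻¹).val) ⊗ₜ[k] 1 +
        (g' * h⁻¹).val ⊗ₜ[k] (y * (h⁻¹).val) := by
      rw [Bialgebra.comul_mul, hy, (h⁻¹).2.comul_eq_tmul_self, add_mul, Algebra.TensorProduct.tmul_mul_tmul,
        Algebra.TensorProduct.tmul_mul_tmul, grp_mul_inv, GroupLike.val_mul, add_comm]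
    obtain ⟨n, hn⟩ := huni _ (N.mul_mem hg' (N.inv_mem hh)) _ h1
    refine ⟨n, ?_⟩
    have h2 : ∀ (m : ℕ) (z : H), ((cj k g - 1) ^ m) (z * h.val) = ((cj k g - 1) ^ m) z * h.val := by
      intro m
      induction m with
      | zero => intro z; simp
      | succ m ih =>
        intro z
        have h3 : (cj k g - 1) (z * h.val) = (cj k g - 1) z * h.val := by
          rw [LinearMap.sub_apply, LinearMap.sub_apply, Module.End.one_apply, Module.End.one_apply, GKC.cj_mul,
            hfix h hh, _root_.sub_mul]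
        rw [pow_succ, Module.End.mul_apply, h3, ih, Module.End.mul_apply]
    have h4 : y = (y * (h⁻¹).val) * h.val := by rw [mul_assoc, grp_inv_mul, mul_one]
    rw [h4, h2, hn, zero_mul]
  intro x hx
  obtain ⟨D, hDf, hD, hxD⟩ := mem_UN' hx
  obtain ⟨r, F, hF0, hFr, hmono, hFD, hFs, hFc⟩ := chain_of k (coradical k H) D (GKP.coradical_sub k) le_rfl hDf hD.1
  obtain ⟨T, hT⟩ := exists_T hp hDf hD.1
  have hTN : ∀ t ∈ T, t ∈ N := by
    intro t ht
    have h1 : t.val ∈ kS k (N : Set (GroupLike k H)) := hD.2 (hT ▸ Submodule.subset_span ⟨t, ht, rfl⟩)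
    by_contra hcon
    obtain ⟨f, hf1, hf2⟩ := exists_dual k t
    have h2 : kS k (N : Set (GroupLike k H)) ≤ LinearMap.ker f := by
      unfold kS
      rw [Submodule.span_le]
      rintro _ ⟨h, hh, rfl⟩
      exact hf2 h (fun h3 => hcon (h3 ▸ hh))
    exact hf1 (h2 h1)
  have hkT : kS k (T : Set (GroupLike k H)) ≤ kS k (N : Set (GroupLike k H)) := kS_mono k hTN
  have hwd : wd2 (kS k (T : Set (GroupLike k H))) ≤ Nil (cj k g - 1) := by
    refine wd2_le hidem T (fun t ht => ?_) fun g' hg' h hh y hy => hskew g' (hTN g' hg') h (hTN h hh) y hy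
    exact ⟨1, by rw [pow_one, LinearMap.sub_apply, Module.End.one_apply, hfix t (hTN t ht), sub_self]⟩
  have key : ∀ i, F i ≤ Nil (cj k g - 1) := by
    intro i
    induction i with
    | zero =>
      intro y hy
      rw [hF0] at hy
      exact ⟨1, by rw [pow_one, LinearMap.sub_apply, Module.End.one_apply, hfix' y (hD.2 hy), sub_self]⟩
    | succ i ih =>
      intro y hy
      have h1 := hFc i y hy
      rw [hF0, hT] at h1
      obtain ⟨a, ha, w, hw, haw⟩ := Submodule.mem_sup.1 h1
      obtain ⟨K, hK⟩ := Nil_tsp ih ih hw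
      have h2 : ((cj k g - 1) ^ K) y ∈ wd2 (kS k (T : Set (GroupLike k H))) := by
        rw [wd2, Submodule.mem_comap, comul_pow, ← haw, map_add, hK, add_zero]
        refine Nil_stay (fun x hx => hfix' x (hkT hx)) K ?_
        exact sup_le_sup (tsp_mono k le_top le_rfl) (tsp_mono k le_rfl le_top) ha
      obtain ⟨m, hm⟩ := hwd h2
      refine ⟨m + K, ?_⟩
      rw [pow_add, Module.End.mul_apply, hm]
  exact key r (hFr ▸ hxD)

end uni

end Pool.Agent.GKX
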