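import Pool.Agent.Lib_helper2.GKX.X6

/-!
# Pointed Hopf algebras with unipotent infinitesimal braiding
-/

set_option autoImplicit false

universe u v w

namespace Pool.Agent.GKX

open TensorProduct Pool.Agent.GK Pool.Agent.GKP Pool.Agent.GKC Pool.Agent.GKU Pool.Agent.GKV Pool.Agent.GKW

section pt
variable (k : Type u) [Field k] {H : Type v} [Ring H] [HopfAlgebra k H]

/-- `x` is `(1, g)`-primitive: `Δ x = x ⊗ 1 + g ⊗ x` -/
def SkewPrim (g : GroupLike k H) (x : H) : Prop :=
  Coalgebra.comul (R := k) x = x ⊗ₜ[k] 1 + g.val ⊗ₜ[k] x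

/-- there is a `(1, g)`-primitive element which is not a multiple of `1 - g` -/
def Linking (g : GroupLike k H) : Prop :=
  ∃ x : H, SkewPrim k g x ∧ ∀ c : k, x ≠ c • (1 - g.val)

variable {k}

theorem SkewPrim.cj {h : GroupLike k H} {x : H} (hx : SkewPrim k h x) (g : GroupLike k H) :
    SkewPrim k (g * h * g⁻¹) (cj k g x) := by
  unfold SkewPrim at *
  rw [cj_comul, hx, map_add, TensorProduct.map_tmul, TensorProduct.map_tmul, cj_one]
  have h1 : GKC.cj k g h.val = (g * h * g⁻¹).val := by
    rw [cj_apply, GroupLike.val_mul, GroupLike.val_mul, mul_assoc]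
  rw [h1]

theorem Linking.conj {h : GroupLike k H} (hh : Linking k h) (g : GroupLike k H) :
    Linking k (g * h * g⁻¹) := by
  obtain ⟨x, hx, hc⟩ := hh
  refine ⟨GKC.cj k g x, hx.cj g, fun c h1 => hc c ?_⟩
  have h2 := congrArg (GKC.cj k g⁻¹) h1
  rw [cj_inv_cj, map_smul, map_sub, cj_one] at h2
  have h3 : GKC.cj k g⁻¹ (g * h * g⁻¹).val = h.val := by
    have h4 : (g * h * g⁻¹).val = GKC.cj k g h.val := by
      rw [cj_apply, GroupLike.val_mul, GroupLike.val_mul, mul_assoc]
    rw [h4, cj_inv_cj]
  rw [h3] at h2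
  exact h2

/-- the group generated by the linking group-likes -/
def linkG (k : Type u) [Field k] (H : Type v) [Ring H] [HopfAlgebra k H] : Subgroup (GroupLike k H) :=
  Subgroup.closure {g | Linking k g}

theorem linkG_normal : (linkG k H).Normal := by
  refine ⟨fun n hn g => ?_⟩
  have h1 : linkG k H ≤ (linkG k H).comap (MulAut.conj g).toMonoidHom := by
    conv_lhs => rw [linkG]
    rw [Subgroup.closure_le]
    intro a ha
    exact Subgroup.subset_closure (Linking.conj ha g)
  exact h1 hn

theorem linkG_comm (hcomm : ∀ g h : GroupLike k H, Linking k g → Linking k h → g * h = h * g) :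
    ∀ a ∈ linkG k H, ∀ b ∈ linkG k H, a * b = b * a := by
  intro a ha b hb
  have h1 : linkG k H ≤ Subgroup.centralizer ({g | Linking k g} : Set (GroupLike k H)) := by
    rw [linkG, Subgroup.closure_le]
    intro g hg
    rw [SetLike.mem_coe, Subgroup.mem_centralizer_iff]
    intro h hh
    exact hcomm h g hh hg
  have h2 : linkG k H ≤ Subgroup.centralizer (linkG k H : Set (GroupLike k H)) := by
    conv_lhs => rw [linkG]
    rw [Subgroup.closure_le]
    intro g hg
    rw [SetLike.mem_coe, Subgroup.mem_centralizer_iff]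
    intro h hh
    exact (Subgroup.mem_centralizer_iff.1 (h1 hh) g hg).symm
  exact (Subgroup.mem_centralizer_iff.1 (h2 ha) b hb).symm

theorem cj_commute {g h : GroupLike k H} (hc : g * h = h * g) : Commute (GKC.cj k g) (GKC.cj k h) := by
  ext x
  rw [Module.End.mul_apply, Module.End.mul_apply, ← cj_mul_g, ← cj_mul_g, hc]

theorem commute_pow_apply {A B : H →ₗ[k] H} (hc : Commute A B) (n : ℕ) (x : H) : (A ^ n) (B x) = B ((A ^ n) x) := by
  have := (hc.pow_left n).eq
  rw [← Module.End.mul_apply, this, Module.End.mul_apply]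

/-- unipotence on a stable subspace is a property of the generated group -/
theorem uni_closure {U : Submodule k H} {S : Set (GroupLike k H)}
    (hcomm : ∀ a ∈ Subgroup.closure S, ∀ b ∈ Subgroup.closure S, a * b = b * a)
    (hU : ∀ g : GroupLike k H, ∀ x ∈ U, GKC.cj k g x ∈ U)
    (h : ∀ g ∈ S, U ≤ Nil (GKC.cj k g - 1)) : ∀ g ∈ Subgroup.closure S, U ≤ Nil (GKC.cj k g - 1) := by
  have hst : ∀ (g : GroupLike k H) (j : ℕ), ∀ x ∈ U, ((GKC.cj k g - 1) ^ j) x ∈ U := by
    intro g j
    induction j with
    | zero => intro x hx; simpa using hx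
    | succ j ih =>
      intro x hx
      rw [pow_succ, Module.End.mul_apply]
      apply ih
      rw [LinearMap.sub_apply, Module.End.one_apply]
      exact U.sub_mem (hU g x hx) hx
  intro g hg
  induction hg using Subgroup.closure_induction with
  | mem g hg => exact h g hg
  | one =>
    intro x _
    refine ⟨1, ?_⟩
    rw [pow_one, LinearMap.sub_apply, Module.End.one_apply, cj_self, sub_self]
  | mul g g' hg hg' ih ih' =>
    intro x hx
    have hc := cj_commute (hcomm g hg g' hg')
    have h1 : GKC.cj k (g * g') - 1 = (GKC.cj k g - 1) * GKC.cj k g' + (GKC.cj k g' - 1) := by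
      ext y
      rw [LinearMap.sub_apply, LinearMap.add_apply, Module.End.mul_apply, LinearMap.sub_apply, LinearMap.sub_apply,
        cj_mul_g]
      simp only [Module.End.one_apply]
      abel
    rw [h1]
    have hc1 : Commute (GKC.cj k g - 1) (GKC.cj k g') := hc.sub_left (Commute.one_left _)
    have hc2 : Commute ((GKC.cj k g - 1) * GKC.cj k g') (GKC.cj k g' - 1) := by
      refine (Commute.mul_left ?_ ?_)
      · exact hc1.sub_right (Commute.one_right _)
      · exact (Commute.refl _).sub_right (Commute.one_right _)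
    refine Nil_add hc2 (fun j => ?_) (ih' hx)
    obtain ⟨n, hn⟩ := ih (hst g' j x hx)
    refine ⟨n, ?_⟩
    rw [hc1.mul_pow, (hc1.pow_pow n n).eq, Module.End.mul_apply, hn, map_zero]
  | inv g hg ih =>
    intro x hx
    obtain ⟨n, hn⟩ := ih hx
    have hc := cj_commute (hcomm g hg g⁻¹ (Subgroup.inv_mem _ hg))
    have h1 : GKC.cj k g⁻¹ - 1 = (-GKC.cj k g⁻¹) * (GKC.cj k g - 1) := by
      ext y
      rw [LinearMap.sub_apply, Module.End.mul_apply, LinearMap.sub_apply, LinearMap.neg_apply, map_sub, cj_inv_cj]
      simp only [Module.End.one_apply]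
      abel
    have hc1 : Commute (-GKC.cj k g⁻¹) (GKC.cj k g - 1) :=
      (hc.symm.neg_left).sub_right (Commute.one_right _)
    refine ⟨n, ?_⟩
    rw [h1, hc1.mul_pow, Module.End.mul_apply, hn, map_zero]

/-- the commutators with the elements of `k N` -/
theorem hnil_kS {N : Subgroup (GroupLike k H)} (hNc : ∀ a ∈ N, ∀ b ∈ N, a * b = b * a) {U : Submodule k H}
    (hU : IsSubbialgebra k U) (hNU : kS k (N : Set (GroupLike k H)) ≤ U)
    (h : ∀ g ∈ N, U ≤ Nil (GKC.cj k g - 1)) :
    ∀ a ∈ kS k (N : Set (GroupLike k H)), U ≤ Nil (cm k a) := by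
  have hcc : ∀ a ∈ kS k (N : Set (GroupLike k H)), ∀ b ∈ kS k (N : Set (GroupLike k H)), a * b = b * a := by
    intro a ha b hb
    unfold kS at ha hb
    induction ha using Submodule.span_induction with
    | mem y hy =>
      obtain ⟨g, hg, rfl⟩ := hy
      induction hb using Submodule.span_induction with
      | mem z hz =>
        obtain ⟨h', hh', rfl⟩ := hz
        rw [← GroupLike.val_mul, ← GroupLike.val_mul, hNc g hg h' hh']
      | zero => rw [mul_zero, zero_mul]
      | add y z _ _ hy hz => rw [mul_add, add_mul, hy, hz]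
      | smul t y _ hy => rw [mul_smul_comm, smul_mul_assoc, hy]
    | zero => rw [mul_zero, zero_mul]
    | add y z _ _ hy hz => rw [mul_add, add_mul, hy, hz]
    | smul t y _ hy => rw [mul_smul_comm, smul_mul_assoc, hy]
  have hcm : ∀ a ∈ kS k (N : Set (GroupLike k H)), ∀ b ∈ kS k (N : Set (GroupLike k H)),
      Commute (cm k a) (cm k b) := by
    intro a ha b hb
    ext x
    rw [Module.End.mul_apply, Module.End.mul_apply, cm_apply, cm_apply, cm_apply, cm_apply]
    have h1 := hcc a ha b hb
    have h2 : a * (b * x - x * b) - (b * x - x * b) * a =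
        (a * b) * x - a * x * b - b * x * a + x * (b * a) := by noncomm_ring
    have h3 : b * (a * x - x * a) - (a * x - x * a) * b =
        (b * a) * x - b * x * a - a * x * b + x * (a * b) := by noncomm_ring
    rw [h2, h3, h1]
    abel
  have hst : ∀ a ∈ kS k (N : Set (GroupLike k H)), ∀ j : ℕ, ∀ x ∈ U, ((cm k a) ^ j) x ∈ U := by
    intro a ha j
    induction j with
    | zero => intro x hx; simpa using hx
    | succ j ih =>
      intro x hx
      rw [pow_succ, Module.End.mul_apply]
      apply ih
      rw [cm_apply]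
      exact U.sub_mem (hU.mul_mem _ (hNU ha) _ hx) (hU.mul_mem _ hx _ (hNU ha))
  intro a ha
  have ha' := ha
  unfold kS at ha'
  induction ha' using Submodule.span_induction with
  | mem y hy =>
    obtain ⟨g, hg, rfl⟩ := hy
    intro x hx
    obtain ⟨n, hn⟩ := h g hg hx
    refine ⟨n, ?_⟩
    have key : ∀ (n : ℕ) (x : H), ((cm k g.val) ^ n) x = ((GKC.cj k g - 1) ^ n) x * g.val ^ n := by
      intro n
      induction n with
      | zero => intro x; simp
      | succ n ih =>
        intro x
        have h2 : cm k g.val x = (GKC.cj k g - 1) x * g.val := by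
          rw [cm_apply, LinearMap.sub_apply, Module.End.one_apply, _root_.sub_mul, cj_apply, mul_assoc, mul_assoc,
            grp_inv_mul, mul_one]
        have h3 : ∀ z : H, (GKC.cj k g - 1) (z * g.val) = (GKC.cj k g - 1) z * g.val := by
          intro z
          have h4 : GKC.cj k g g.val = g.val := by
            rw [cj_apply, grp_mul_inv, mul_one]
          rw [LinearMap.sub_apply, LinearMap.sub_apply, Module.End.one_apply, Module.End.one_apply, GKC.cj_mul, h4,
            _root_.sub_mul]
        have h5 : ∀ (m : ℕ) (z : H), ((GKC.cj k g - 1) ^ m) (z * g.val) = ((GKC.cj k g - 1) ^ m) z * g.val := by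
          intro m
          induction m with
          | zero => intro z; simp
          | succ m ihm =>
            intro z
            rw [pow_succ, Module.End.mul_apply, h3, ihm, Module.End.mul_apply]
        rw [pow_succ, Module.End.mul_apply, ih, h2, h5, pow_succ, Module.End.mul_apply, pow_succ', mul_assoc]
    rw [key, hn, zero_mul]
  | zero =>
    intro x _
    exact ⟨1, by rw [pow_one, map_zero, LinearMap.zero_apply]⟩
  | add y z hy hz ihy ihz =>
    intro x hx
    rw [map_add]
    exact Nil_add (hcm y hy z hz) (fun j => ihy hy (hst z hz j x hx)) (ihz hz hx)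
  | smul t y hy ih =>
    intro x hx
    obtain ⟨n, hn⟩ := ih hy hx
    refine ⟨n, ?_⟩
    rw [map_smul, smul_pow, LinearMap.smul_apply, hn, smul_zero]

end pt

end Pool.Agent.GKX
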