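import Pool.Agent.Lib_helper2.GKX.X7

/-!
# Characteristic zero: unipotent linking group-likes commute
-/

set_option autoImplicit false

universe u v w

namespace Pool.Agent.GKX

open TensorProduct Pool.Agent.GK Pool.Agent.GKP Pool.Agent.GKC Pool.Agent.GKU Pool.Agent.GKV Pool.Agent.GKW

section poly
open Polynomial
variable {k : Type u} [Field k]

theorem poly_expand (l j : ℕ) : ∃ q : k[X], ((X + 1) ^ l - 1) ^ j = C ((l : k) ^ j) * X ^ j + X ^ (j + 1) * q := by
  obtain ⟨r, hr⟩ := Polynomial.powAddExpansion (1 : k[X]) X l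
  have h1 : (X + 1 : k[X]) ^ l - 1 = X * (C (l : k) + X * r) := by
    rw [add_comm X 1, hr]
    simp only [one_pow, mul_one, map_natCast]
    ring
  obtain ⟨s, hs⟩ : X ∣ (C (l : k) + X * r) ^ j - (C (l : k)) ^ j := by
    refine dvd_trans ?_ (sub_dvd_pow_sub_pow _ _ j)
    rw [add_sub_cancel_left]
    exact dvd_mul_right _ _
  refine ⟨s, ?_⟩
  have h2 : (C (l : k) + X * r) ^ j = C (l : k) ^ j + X * s := by
    rw [← hs]; ring
  rw [h1, mul_pow, h2, map_pow]
  ring

variable {M : Type w} [AddCommGroup M] [Module k M]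

theorem uni_root [CharZero k] {φ : M →ₗ[k] M} {Z : Submodule k M} {l : ℕ} (hl : l ≠ 0) (hZ : ∀ x ∈ Z, (φ ^ l) x ∈ Z)
    {x : M} (hx : x ∈ Z) {n : ℕ} (hn : ((φ - 1) ^ n) x = 0) : φ x ∈ Z := by
  have hθ : ∀ j : ℕ, ((φ ^ l - 1) ^ j) x ∈ Z := by
    intro j
    induction j with
    | zero => simpa using hx
    | succ j ih =>
      rw [pow_succ', Module.End.mul_apply, LinearMap.sub_apply, Module.End.one_apply]
      exact Z.sub_mem (hZ _ ih) ih
  have key : ∀ d j : ℕ, n ≤ j + d → 1 ≤ j → ((φ - 1) ^ j) x ∈ Z := by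
    intro d
    induction d with
    | zero =>
      intro j hj _
      rw [nil_le hn (by simpa using hj)]
      exact Z.zero_mem
    | succ d ih =>
      intro j hj hj1
      obtain ⟨q, hq⟩ := poly_expand (k := k) l j
      have h1 := congrArg (fun p => (aeval (φ - 1) p) x) hq
      simp only [map_pow, map_sub, map_add, map_mul, aeval_X, map_one, sub_add_cancel, LinearMap.add_apply,
        Module.End.mul_apply, aeval_C] at h1
      have h2 : ((φ - 1) ^ (j + 1)) ((aeval (φ - 1) q) x) ∈ Z := by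
        rw [aeval_eq_sum_range, LinearMap.sum_apply, map_sum]
        refine Submodule.sum_mem _ fun i _ => ?_
        rw [LinearMap.smul_apply, map_smul, ← Module.End.mul_apply, ← pow_add]
        exact Z.smul_mem _ (ih (j + 1 + i) (by omega) (by omega))
      have h3 : ((l : k) ^ j) • ((φ - 1) ^ j) x ∈ Z := by
        have h4 := Z.sub_mem (hθ j) h2
        rw [h1, add_sub_cancel_right] at h4
        rwa [← map_pow, Module.algebraMap_end_apply] at h4
      have hl' : ((l : k) ^ j) ≠ 0 := pow_ne_zero _ (Nat.cast_ne_zero.2 hl)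
      have h5 := Z.smul_mem ((l : k) ^ j)⁻¹ h3
      rwa [smul_smul, inv_mul_cancel₀ hl', one_smul] at h5
  have h1 := key n 1 (by omega) le_rfl
  rw [pow_one, LinearMap.sub_apply, Module.End.one_apply] at h1
  have h2 := Z.add_mem h1 hx
  rwa [sub_add_cancel] at h2

end poly

section char0
variable {k : Type u} [Field k] {H : Type v} [Ring H] [HopfAlgebra k H]

/-- the subspace of the `(1, g)`-primitives -/
def PS (g : GroupLike k H) : Submodule k H where
  carrier := {x | SkewPrim k g x}
  zero_mem' := by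
    change SkewPrim k g 0
    unfold SkewPrim
    rw [map_zero, TensorProduct.zero_tmul, TensorProduct.tmul_zero, add_zero]
  add_mem' := by
    intro x y hx hy
    change SkewPrim k g (x + y)
    have hx' : SkewPrim k g x := hx
    have hy' : SkewPrim k g y := hy
    unfold SkewPrim at *
    rw [map_add, hx', hy', TensorProduct.add_tmul, TensorProduct.tmul_add]
    abel
  smul_mem' := by
    intro c x hx
    change SkewPrim k g (c • x)
    have hx' : SkewPrim k g x := hx
    unfold SkewPrim at *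
    rw [map_smul, hx', smul_add, TensorProduct.smul_tmul', TensorProduct.tmul_smul]

theorem mem_PS {g : GroupLike k H} {x : H} : x ∈ PS g ↔ SkewPrim k g x := Iff.rfl

theorem R_skew {g : GroupLike k H} {x : H} (hx : SkewPrim k g x) (f : Module.Dual k H) :
    FLAG_R k f x = f x • (1 : H) + f g.val • x := by
  unfold SkewPrim at hx
  rw [FLAG_R_apply, hx]
  simp

/-- nonzero skew-primitives for different group-likes are independent -/
theorem skew_indep {s : Finset ℕ} {h : ℕ → GroupLike k H} (hinj : ∀ i ∈ s, ∀ j ∈ s, h i = h j → i = j)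
    {y : ℕ → H} (hy : ∀ i ∈ s, SkewPrim k (h i) (y i)) {c : ℕ → k} (hsum : ∑ i ∈ s, c i • y i = 0) {i : ℕ}
    (hi : i ∈ s) : c i • y i = 0 := by
  obtain ⟨f, hf1, hf2⟩ := exists_dual k (h i)
  have h1 := congrArg (FLAG_R k f) hsum
  rw [map_sum, map_zero] at h1
  have h2 : ∀ j ∈ s, FLAG_R k f (c j • y j) = f (c j • y j) • (1 : H) + (if j = i then (f (h i).val) • (c i • y i) else 0) := by
    intro j hj
    rw [map_smul, R_skew (hy j hj), smul_add, map_smul, smul_smul, smul_eq_mul]
    split_ifs with hji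
    · subst hji
      rw [smul_comm]
    · rw [hf2 (h j) (fun h3 => hji (hinj j hj i hi h3)), zero_smul, smul_zero]
  rw [Finset.sum_congr rfl h2, Finset.sum_add_distrib, ← Finset.sum_smul, ← map_sum, hsum, map_zero, zero_smul,
    zero_add, Finset.sum_ite_eq' s i, if_pos hi] at h1
  exact (smul_eq_zero.1 h1).resolve_left hf1

theorem SkewPrim.eq {g h : GroupLike k H} {x : H} (hx : SkewPrim k g x) (hx' : SkewPrim k h x) (h0 : x ≠ 0) :
    g = h := by
  by_contra hne
  obtain ⟨f, hf1, hf2⟩ := exists_dual k g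
  have h1 := R_skew hx f
  rw [R_skew hx' f, hf2 h (Ne.symm hne), zero_smul, add_zero] at h1
  have h2 : f g.val • x = 0 := by
    have := congrArg (fun z => z - f x • (1 : H)) h1
    simpa using this.symm
  exact h0 ((smul_eq_zero.1 h2).resolve_left hf1)

theorem cj_pow_skew {h : GroupLike k H} {x : H} (hx : SkewPrim k h x) (g : GroupLike k H) (i : ℕ) :
    SkewPrim k (g ^ i * h * (g ^ i)⁻¹) ((GKC.cj k g ^ i) x) := by
  induction i with
  | zero => simpa using hx
  | succ i ih =>
    have h1 := ih.cj g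
    rw [pow_succ' (GKC.cj k g), Module.End.mul_apply]
    have h2 : g * (g ^ i * h * (g ^ i)⁻¹) * g⁻¹ = g ^ (i + 1) * h * (g ^ (i + 1))⁻¹ := by
      rw [pow_succ']; group
    rwa [h2] at h1

theorem cj_pow_ne {x : H} (hx : x ≠ 0) (g : GroupLike k H) (i : ℕ) : (GKC.cj k g ^ i) x ≠ 0 := by
  induction i with
  | zero => simpa using hx
  | succ i ih =>
    rw [pow_succ', Module.End.mul_apply]
    intro h1
    apply ih
    rw [← cj_inv_cj k g ((GKC.cj k g ^ i) x), h1, map_zero]

/-- in characteristic zero a group-like which acts locally unipotently on the `(1, h)`-primitives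
commutes with `h` -/
theorem comm_of_uni [CharZero k] {g h : GroupLike k H} (hh : Linking k h)
    (huni : ∀ x : H, SkewPrim k h x → x ∈ Nil (GKC.cj k g - 1)) : g * h = h * g := by
  obtain ⟨x, hx, hc⟩ := hh
  have hx0 : x ≠ 0 := fun h0 => hc 0 (by rw [h0, zero_smul])
  obtain ⟨n, hn⟩ := huni x hx
  -- two conjugates agree
  obtain ⟨i, j, hij, heq⟩ : ∃ i j : ℕ, i < j ∧ g ^ i * h * (g ^ i)⁻¹ = g ^ j * h * (g ^ j)⁻¹ := by
    by_contra hcon
    push Not at hcon
    have hinj : ∀ i j : ℕ, g ^ i * h * (g ^ i)⁻¹ = g ^ j * h * (g ^ j)⁻¹ → i = j := by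
      intro i j hij
      rcases lt_trichotomy i j with h1 | h1 | h1
      · exact absurd hij (hcon i j h1)
      · exact h1
      · exact absurd hij.symm (hcon j i h1)
    have h1 : (Polynomial.aeval (GKC.cj k g) ((Polynomial.X - 1 : Polynomial k) ^ n)) x = 0 := by
      rw [map_pow, map_sub, Polynomial.aeval_X, map_one, hn]
    rw [Polynomial.aeval_eq_sum_range, LinearMap.sum_apply] at h1
    simp only [LinearMap.smul_apply] at h1
    have h2 := skew_indep (k := k) (s := Finset.range (((Polynomial.X - 1 : Polynomial k) ^ n).natDegree + 1))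
      (h := fun i => g ^ i * h * (g ^ i)⁻¹) (fun i _ j _ hij => hinj i j hij)
      (y := fun i => (GKC.cj k g ^ i) x) (fun i _ => cj_pow_skew hx g i) h1 (i := 0) (by simp)
    have h3 : ((Polynomial.X - 1 : Polynomial k) ^ n).coeff 0 = (-1) ^ n := by
      rw [Polynomial.coeff_zero_eq_eval_zero]
      simp
    rw [h3] at h2
    rcases smul_eq_zero.1 h2 with h4 | h4
    · exact absurd h4 (pow_ne_zero _ (neg_ne_zero.2 one_ne_zero))
    · exact hx0 (by simpa using h4)
  set l := j - i with hl
  have hl0 : l ≠ 0 := by omega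
  have hgl : g ^ l * h * (g ^ l)⁻¹ = h := by
    have h1 : g ^ j = g ^ i * g ^ l := by rw [← pow_add]; congr 1; omega
    rw [h1] at heq
    have h2 : g ^ i * g ^ l * h * (g ^ i * g ^ l)⁻¹ = g ^ i * (g ^ l * h * (g ^ l)⁻¹) * (g ^ i)⁻¹ := by group
    rw [h2] at heq
    have h3 := mul_right_cancel heq
    exact (mul_left_cancel h3).symm
  have hZ : ∀ y ∈ PS h, (GKC.cj k g ^ l) y ∈ PS h := by
    intro y hy
    have := cj_pow_skew (mem_PS.1 hy) g l
    rw [hgl] at this
    exact this
  have h1 : GKC.cj k g x ∈ PS h := uni_root hl0 hZ hx hn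
  have h2 : SkewPrim k (g * h * g⁻¹) (GKC.cj k g x) := hx.cj g
  have h3 : GKC.cj k g x ≠ 0 := by
    have := cj_pow_ne hx0 g 1
    rwa [pow_one] at this
  have h4 := SkewPrim.eq h2 (mem_PS.1 h1) h3
  rw [mul_inv_eq_iff_eq_mul] at h4
  exact h4

end char0

end Pool.Agent.GKX
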