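import Pool.Agent.Lib_helper2.GKX.X8
import Pool.Agent.Lib_helper2.GKX.I1

/-!
# Pointed Hopf algebras with unipotent infinitesimal braiding: the theorem
-/

set_option autoImplicit false

universe u v w

namespace Pool.Agent.GKX

open TensorProduct Pool.Agent.GK Pool.Agent.GKP Pool.Agent.GKC Pool.Agent.GKU Pool.Agent.GKV Pool.Agent.GKW

section pt
variable (k : Type u) [Field k] {H : Type v} [Ring H] [HopfAlgebra k H]

/-- The theorem. -/
theorem pointed_main
    (hp : ∀ D : Submodule k H, IsSimpleSubcoalgebra k D → Module.finrank k D = 1)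
    (hcomm : CharZero k ∨ ∀ g h : GroupLike k H, Linking k g → Linking k h → g * h = h * g)
    (huni : ∀ g h : GroupLike k H, Linking k g → Linking k h → ∀ x : H, SkewPrim k h x →
      ∃ n : ℕ, (fun y => g.val * y * (g⁻¹).val - y)^[n] x = 0) :
    GKdim k H = ⊤ ∨ ∃ m : ℕ, GKdim k H = GKdim k (MonoidAlgebra k (GroupLike k H)) + m ∧
      ((∀ a b : GroupLike k H, a * b = b * a) →
        ∃ e : ℕ, GKdim k (MonoidAlgebra k (GroupLike k H)) = e) := by
  have hnt : Nontrivial H := Bialgebra.nontrivial (R := k)
  have hidem := exists_Idem (k := k) (H := H)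
  have hpc := pt_coradical k hp
  have huni' : ∀ g h : GroupLike k H, Linking k g → Linking k h → ∀ x : H, SkewPrim k h x →
      x ∈ Nil (GKC.cj k g - 1) := by
    intro g h hg hh x hx
    obtain ⟨n, hn⟩ := huni g h hg hh x hx
    refine ⟨n, ?_⟩
    have h1 : (((GKC.cj k g - 1 : H →ₗ[k] H)) : H → H) = fun y => g.val * y * (g⁻¹).val - y := by
      funext y
      rw [LinearMap.sub_apply, Module.End.one_apply, cj_apply, ← mul_assoc]
    rw [Module.End.pow_apply, h1]
    exact hn
  have hcomm' : ∀ g h : GroupLike k H, Linking k g → Linking k h → g * h = h * g := by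
    rcases hcomm with h0 | h0
    · intro g h hg hh
      exact comm_of_uni hh (huni' g h hg hh)
    · exact h0
  have hNc := linkG_comm (k := k) (H := H) hcomm'
  have hN := linkG_normal (k := k) (H := H)
  set N := linkG k H with hNdef
  have hlink : ∀ (g : GroupLike k H) (x : H), Coalgebra.comul (R := k) x = x ⊗ₜ[k] 1 + g.val ⊗ₜ[k] x →
      g ∈ N ∨ ∃ c : k, x = c • (1 - g.val) := by
    intro g x hx
    by_cases h : Linking k g
    · exact Or.inl (Subgroup.subset_closure h)
    · right
      by_contra hcon
      push Not at hcon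
      exact h ⟨x, hx, hcon⟩
  have hspan := UN_span hpc hidem N hlink
  have hU := UN_bialg (k := k) N
  have hinf : UN k (N : Set (GroupLike k H)) ⊓ coradical k H = kS k (N : Set (GroupLike k H)) := UN_inf
  have hcj : ∀ g : GroupLike k H, ∀ x ∈ UN k (N : Set (GroupLike k H)),
      GKC.cj k g x ∈ UN k (N : Set (GroupLike k H)) := fun g x hx => UN_conj N hN g hx
  have hgen : ∀ g ∈ {g | Linking k g}, UN k (N : Set (GroupLike k H)) ≤ Nil (GKC.cj k g - 1) := by
    intro g hg
    refine UN_uni hpc hidem N hNc g (Subgroup.subset_closure hg) fun h hh x hx => ?_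
    by_cases hl : Linking k h
    · exact huni' g h hg hl x hx
    · have h1 : ∃ c : k, x = c • (1 - h.val) := by
        by_contra hcon
        push Not at hcon
        exact hl ⟨x, hx, hcon⟩
      obtain ⟨c, rfl⟩ := h1
      refine ⟨1, ?_⟩
      have h2 : GKC.cj k g h.val = h.val := by
        rw [cj_apply, ← mul_assoc, ← GroupLike.val_mul, hNc g (Subgroup.subset_closure hg) h hh,
          GroupLike.val_mul, mul_assoc, grp_mul_inv, mul_one]
      rw [pow_one, LinearMap.sub_apply, Module.End.one_apply, map_smul, map_sub, cj_one, h2, sub_self]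
  have hall := uni_closure (k := k) (S := {g | Linking k g}) hNc hcj hgen
  have hnil := hnil_kS hNc hU (le_UN ⟨kS_sub k _, inf_le_left⟩) hall
  have hmain := main3 k hU (hinf ▸ kS_hopf N) (by
      rw [hinf]
      intro a ha b hb
      unfold kS at ha hb
      induction ha using Submodule.span_induction with
      | mem y hy =>
        obtain ⟨g, hg, rfl⟩ := hy
        induction hb using Submodule.span_induction with
        | mem z hz =>
          obtain ⟨h', hh', rfl⟩ := hz
          rw [← GroupLike.val_mul, ← GroupLike.val_mul, hNc g hg h' hh']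
        | zero => rw [mul_zero, zero_mul]
        | add y z _ _ hy hz => rw [mul_add, add_mul, hy, hz]
        | smul t y _ hy => rw [mul_smul_comm, smul_mul_assoc, hy]
      | zero => rw [mul_zero, zero_mul]
      | add y z _ _ hy hz => rw [mul_add, add_mul, hy, hz]
      | smul t y _ hy => rw [mul_smul_comm, smul_mul_assoc, hy]) (by
      rw [hinf]
      intro a ha x hx
      obtain ⟨n, hn⟩ := hnil a ha hx
      refine ⟨n, ?_⟩
      have h1 : ((cm k a : H →ₗ[k] H) : H → H) = fun y => a * y - y * a := funext fun y => cm_apply k a y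
      rw [Module.End.pow_apply, h1] at hn
      exact hn) (Γ := ⊤) (by
      intro g _ x hx
      have := hcj g x hx
      rwa [cj_apply, ← mul_assoc] at this) (by
      rw [Subgroup.coe_top]
      exact hspan)
  rcases hmain.2 with h | ⟨-, d, m, -, -, h3, h4⟩
  · exact Or.inl h
  · right
    have h5 : GKsub k (coradical k H) = GKdim k (MonoidAlgebra k (GroupLike k H)) := by
      rw [hpc]
      exact pt_GK k H
    refine ⟨m, by rw [h3, h5], fun hab => ?_⟩
    rw [← h5]
    refine h4 ?_
    rw [hpc]
    intro a ha b hb
    unfold kS at ha hb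
    induction ha using Submodule.span_induction with
    | mem y hy =>
      obtain ⟨g, hg, rfl⟩ := hy
      induction hb using Submodule.span_induction with
      | mem z hz =>
        obtain ⟨h', hh', rfl⟩ := hz
        rw [← GroupLike.val_mul, ← GroupLike.val_mul, hab g h']
      | zero => rw [mul_zero, zero_mul]
      | add y z _ _ hy hz => rw [mul_add, add_mul, hy, hz]
      | smul t y _ hy => rw [mul_smul_comm, smul_mul_assoc, hy]
    | zero => rw [mul_zero, zero_mul]
    | add y z _ _ hy hz => rw [mul_add, add_mul, hy, hz]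
    | smul t y _ hy => rw [mul_smul_comm, smul_mul_assoc, hy]

end pt

end Pool.Agent.GKX
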